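import Mathlib
import Pool.Agent.Helper64.FreeDefs

/-!
# Project VCD (MP_bca398_lc): dual pairs of hypergraphs of bounded VC-dimension

Definitions. `minimize`, `without`, `link`, `IsDualPair` are those of `Pool.Agent.Helper64.FreeDefs`.
-/

set_option autoImplicit false

namespace Pool.Agent.Helper81.VCD

open Pool.Agent.Helper64.Free

variable {V : Type} [DecidableEq V]

/-- `F` and `G` are cross-intersecting. -/
def Cross (F G : Finset (Finset V)) : Prop := ∀ A ∈ F, ∀ B ∈ G, (A ∩ B).Nonempty

/-- Every set `R` of vertices contains a member of `F` or is disjoint from a member of `G`. -/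
def Cover (F G : Finset (Finset V)) : Prop :=
  ∀ R : Set V, (∃ A ∈ F, ∀ a ∈ A, a ∈ R) ∨ (∃ B ∈ G, ∀ b ∈ B, b ∉ R)

/-- The vertex `x` lies in at least a `1 / s` fraction of the members of `F`. -/
def Heavy (s : ℕ) (F : Finset (Finset V)) (x : V) : Prop :=
  F.card ≤ s * (F.filter (fun I => x ∈ I)).card

/-- The tests made at the beginning of every call of the procedure on `(F, G)`: the families are
cross-intersecting, they have the same vertices, and some vertex lies in at least a `1 / s`
fraction of the members of one of them. -/
def Tests (s : ℕ) (F G : Finset (Finset V)) : Prop :=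
  Cross F G ∧ (∀ x : V, (∃ I ∈ F, x ∈ I) ↔ ∃ J ∈ G, x ∈ J) ∧
    ∃ x : V, Heavy s F x ∨ Heavy s G x

/-- `Alg s t F G b k`: on the pair `(F, G)` the procedure with the parameters `s`, `t` can give the
answer `b` after `k` recursive calls in total (counting the call for `(F, G)` itself).
If one of the families has at most one member the answer is read off. Otherwise, if one of the
tests `Tests s F G` fails, the answer is `false`. Otherwise *any* vertex `x` lying in at least a
`1 / s` fraction of the members of one of the two families is chosen; if it lies in at least a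
`1 / 2 ^ t` fraction of the other family, there is one call for `x = 0` and one for `x = 1`;
otherwise one uses the expansion of Fredman and Khachiyan in which the other family is reduced to
its (few) members through `x`. The answer is `true` if and only if all the calls answer `true`. -/
inductive Alg (s t : ℕ) : Finset (Finset V) → Finset (Finset V) → Bool → ℕ → Prop
  /-- one of the two families has at most one member -/
  | base {F G : Finset (Finset V)} (b : Bool) (h : min F.card G.card ≤ 1)
      (hb : b = true ↔ IsDualPair F G) : Alg s t F G b 1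
  /-- one of the tests fails -/
  | reject {F G : Finset (Finset V)} (h : 1 < min F.card G.card) (hr : ¬ Tests s F G) :
      Alg s t F G false 1
  /-- `x` is heavy in both families: two calls -/
  | split {F G : Finset (Finset V)} (x : V) (b b₀ b₁ : Bool) (k₀ k₁ : ℕ)
      (h : 1 < min F.card G.card) (hT : Tests s F G)
      (hx : (Heavy s F x ∧ Heavy (2 ^ t) G x) ∨ (Heavy s G x ∧ Heavy (2 ^ t) F x))
      (h₀ : Alg s t (without F x) (minimize (G.image (fun J => J.erase x))) b₀ k₀)
      (h₁ : Alg s t (minimize (F.image (fun I => I.erase x))) (without G x) b₁ k₁)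
      (hb : b = true ↔ b₀ = true ∧ b₁ = true) :
      Alg s t F G b (1 + k₀ + k₁)
  /-- `x` is heavy in `F` and rare in `G` -/
  | expandF {F G : Finset (Finset V)} (x : V) (b b₀ : Bool) (β : Finset V → Bool)
      (k₀ : ℕ) (k : Finset V → ℕ)
      (h : 1 < min F.card G.card) (hT : Tests s F G)
      (hx : Heavy s F x ∧ ¬ Heavy (2 ^ t) G x)
      (h₀ : Alg s t (minimize (F.image (fun I => I.erase x))) (without G x) b₀ k₀)
      (hI : ∀ I ∈ link F x, Alg s t (minimize ((without F x).image (fun I' => I' \ I)))
        (minimize ((link G x).filter (fun J => Disjoint J I))) (β I) (k I))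
      (hb : b = true ↔ b₀ = true ∧ ∀ I ∈ link F x, β I = true) :
      Alg s t F G b (1 + k₀ + ∑ I ∈ link F x, k I)
  /-- `x` is heavy in `G` and rare in `F` -/
  | expandG {F G : Finset (Finset V)} (x : V) (b b₀ : Bool) (β : Finset V → Bool)
      (k₀ : ℕ) (k : Finset V → ℕ)
      (h : 1 < min F.card G.card) (hT : Tests s F G)
      (hx : Heavy s G x ∧ ¬ Heavy (2 ^ t) F x)
      (h₀ : Alg s t (without F x) (minimize (G.image (fun J => J.erase x))) b₀ k₀)
      (hJ : ∀ J ∈ link G x, Alg s t (minimize ((link F x).filter (fun I => Disjoint I J)))
        (minimize ((without G x).image (fun J' => J' \ J))) (β J) (k J))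
      (hb : b = true ↔ b₀ = true ∧ ∀ J ∈ link G x, β J = true) :
      Alg s t F G b (1 + k₀ + ∑ J ∈ link G x, k J)

end Pool.Agent.Helper81.VCD
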