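import Mathlib
import Pool.Agent.Helper81.VCD.Defs

/-!
# VCD-1: Sauer's bound for traces (Mathlib only; 40-80 lines)

* `card_small_subsets`: a set `W` with `w` elements has at most `(w+1)^D` subsets of size `≤ D`.
  PROOF. Induction on `D`. `D = 0`: only `∅`. Step: the subsets of size `≤ D+1` are those of size
  `≤ D` and those of size `D+1`; the latter are `w.choose (D+1) ≤ w^(D+1)` many
  (`Finset.card_powersetCard`, `Nat.choose_le_pow`), and
  `(w+1)^D + w^(D+1) ≤ (w+1)^D + w (w+1)^D = (w+1)^(D+1)`.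
* `card_trace_le`: `F` with VC-dimension `≤ d` has at most `(w+1)^d` traces on `W`.
  PROOF. Let `𝒯 = F.image (· ∩ W)`. By `Finset.card_le_card_shatterer` (Pajor) `|𝒯| ≤ |𝒯.shatterer|`.
  If `𝒯` shatters `T` then `T ⊆ t` for a member `t` of `𝒯` (`Shatters.exists_superset`), so
  `T ⊆ W`, and `F` shatters `T` (`T ∩ (A ∩ W) = T ∩ A`), so `T.card ≤ F.vcDim ≤ d`
  (`Shatters.card_le_vcDim`). So `𝒯.shatterer ⊆ W.powerset.filter (card ≤ d)`; use the first part.
-/

set_option autoImplicit false

namespace Pool.Agent.Helper81.VCD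

open Pool.Agent.Helper64.Free

variable {V : Type} [DecidableEq V]

theorem card_small_subsets (W : Finset V) (D : ℕ) :
    (W.powerset.filter (fun T => T.card ≤ D)).card ≤ (W.card + 1) ^ D := by
  induction D with
  | zero =>
    have h : W.powerset.filter (fun T => T.card ≤ 0) ⊆ {∅} := by
      intro T hT
      rw [Finset.mem_filter] at hT
      rw [Finset.mem_singleton]
      exact Finset.card_eq_zero.1 (Nat.le_zero.1 hT.2)
    simpa using Finset.card_le_card h
  | succ D ih =>
    have h : W.powerset.filter (fun T => T.card ≤ D + 1) ⊆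
        W.powerset.filter (fun T => T.card ≤ D) ∪ W.powersetCard (D + 1) := by
      intro T hT
      rw [Finset.mem_filter] at hT
      rw [Finset.mem_union, Finset.mem_filter, Finset.mem_powersetCard]
      rcases Nat.lt_or_ge D T.card with h1 | h1
      · exact Or.inr ⟨Finset.mem_powerset.1 hT.1, le_antisymm hT.2 h1⟩
      · exact Or.inl ⟨hT.1, h1⟩
    have h1 := (Finset.card_le_card h).trans (Finset.card_union_le _ _)
    rw [Finset.card_powersetCard] at h1
    have h2 : W.card.choose (D + 1) ≤ W.card ^ (D + 1) := Nat.choose_le_pow _ _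
    have h3 : W.card ^ (D + 1) ≤ W.card * (W.card + 1) ^ D := by
      rw [pow_succ, mul_comm]
      exact Nat.mul_le_mul_left _ (Nat.pow_le_pow_left (Nat.le_succ _) _)
    calc _ ≤ _ := h1
      _ ≤ (W.card + 1) ^ D + W.card * (W.card + 1) ^ D := by omega
      _ = (W.card + 1) ^ (D + 1) := by ring

theorem card_trace_le (F : Finset (Finset V)) (W : Finset V) (d : ℕ) (hF : F.vcDim ≤ d) :
    (F.image (fun A => A ∩ W)).card ≤ (W.card + 1) ^ d := by
  refine (Finset.card_le_card_shatterer _).trans (le_trans (Finset.card_le_card ?_)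
    (card_small_subsets W d))
  intro T hT
  rw [Finset.mem_shatterer] at hT
  rw [Finset.mem_filter, Finset.mem_powerset]
  obtain ⟨t, ht, hTt⟩ := hT.exists_superset
  obtain ⟨A, hA, rfl⟩ := Finset.mem_image.1 ht
  have hTW : T ⊆ W := hTt.trans Finset.inter_subset_right
  refine ⟨hTW, le_trans (Finset.Shatters.card_le_vcDim ?_) hF⟩
  intro U hU
  obtain ⟨u, hu, hTu⟩ := hT hU
  obtain ⟨B, hB, rfl⟩ := Finset.mem_image.1 hu
  refine ⟨B, hB, ?_⟩
  rw [← hTu]
  ext x
  simp only [Finset.mem_inter]
  constructor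
  · rintro ⟨h1, h2⟩
    exact ⟨h1, h2, hTW h1⟩
  · rintro ⟨h1, h2, _⟩
    exact ⟨h1, h2⟩

end Pool.Agent.Helper81.VCD
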