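import Mathlib

/-!
# VCD-11: the two inequalities of the recursion (Mathlib only, pure arithmetic; 60-120 lines)

* `num_split`. `(s f₀)^P ≤ ((s-1) f)^P`. Bernoulli: `2 (s-1)^s ≤ s^s` (`s = 1`: `0 ≤ 1`; in general
  `s^s = ((s-1)+1)^s ≥ (s-1)^s + s (s-1)^(s-1) ≥ 2 (s-1)^s`), so `2^(t+1) (s-1)^(s(t+1)) ≤ s^(s(t+1))`
  and, as `P ≥ s(t+1)`, `2^(t+1) (s-1)^P ≤ s^P`. Hence `2^(t+1) f₀^P ≤ f^P`. Next
  `(2^t g₁)^P ≤ ((2^t - 1) g)^P ≤ (2^t - 1) (2^t)^(P-1) g^P`, so `2^t g₁^P ≤ (2^t - 1) g^P`. With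
  `Z = (f g)^P`: `2^(t+1) (f₀ g)^P ≤ Z`, `2^(t+1) (f g₁)^P ≤ 2 (2^t - 1) Z`, so
  `2^(t+1) ((f₀ g)^P + (f g₁)^P) ≤ (2^(t+1) - 1) Z`, and it remains `2^(t+1) * 2 ≤ Z`:
  `Z ≥ 4^P ≥ 4^(t+1) ≥ 2^(t+2)`.
* `num_expand`. `2^t b < g` gives `2^(tP) b^P ≤ g^P`; `f g < 2^(n+1)`, `tP ≥ n+2` give
  `2 f g < 2^(n+2) ≤ 2^(tP)`, so `2 f g b^P ≤ 2^(tP) b^P ≤ g^P` and, multiplying by `f^P`,
  `2 g * (f (f b)^P) ≤ (f g)^P = g * (f^P g^(P-1))`, i.e. `2 f (f b)^P ≤ f^P g^(P-1) =: Y`. Next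
  `g^P - (g-1)^P ≥ g^(P-1)` (`(g-1)^P ≤ (g-1) g^(P-1)`), so `(f (g-1))^P + Y ≤ (f g)^P` (`f^P` times). And
  `2 (1 + f) ≤ 2 f^2 ≤ f^P g^(P-1) = Y` (`P ≥ 2`, `f, g ≥ 2`; `1 + f ≤ f^2`). Sum up.
-/

set_option autoImplicit false
namespace Pool.Agent.Helper81.VCD

theorem bern (s : ℕ) (hs : 1 ≤ s) : 2 * (s - 1) ^ s ≤ s ^ s := by
  obtain ⟨m, rfl⟩ : ∃ m, s = m + 1 := ⟨s - 1, by omega⟩
  simp only [Nat.add_sub_cancel]
  have h := one_add_mul_le_pow (R := ℝ) (a := 1 / (m : ℝ)) 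
  rcases Nat.eq_zero_or_pos m with h0 | h0
  · subst h0; norm_num
  have h1 : (1 : ℝ) + ((m + 1 : ℕ) : ℝ) * (1 / (m : ℝ)) ≤ (1 + 1 / (m : ℝ)) ^ (m + 1) := by
    have : (-2 : ℝ) ≤ 1 / (m : ℝ) := by
      have : (0 : ℝ) ≤ 1 / (m : ℝ) := by positivity
      linarith
    exact_mod_cast h this (m + 1)
  have hm : (0 : ℝ) < m := by exact_mod_cast h0
  have h2 : (2 : ℝ) ≤ (1 + 1 / (m : ℝ)) ^ (m + 1) := by
    refine le_trans ?_ h1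
    have : (1 : ℝ) ≤ ((m + 1 : ℕ) : ℝ) * (1 / (m : ℝ)) := by
      rw [mul_one_div, le_div_iff₀ hm]; push_cast; linarith
    linarith
  have h3 : (2 : ℝ) * (m : ℝ) ^ (m + 1) ≤ ((m : ℝ) + 1) ^ (m + 1) := by
    have : ((m : ℝ) + 1) ^ (m + 1) = (1 + 1 / (m : ℝ)) ^ (m + 1) * (m : ℝ) ^ (m + 1) := by
      rw [← mul_pow]; congr 1; field_simp
    rw [this]
    exact mul_le_mul_of_nonneg_right h2 (by positivity)
  exact_mod_cast h3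

theorem bern_pow (s t P : ℕ) (hs : 1 ≤ s) (hP : s * (t + 1) ≤ P) :
    2 ^ (t + 1) * (s - 1) ^ P ≤ s ^ P := by
  obtain ⟨q, rfl⟩ := Nat.exists_eq_add_of_le hP
  calc 2 ^ (t + 1) * (s - 1) ^ (s * (t + 1) + q)
      = (2 * (s - 1) ^ s) ^ (t + 1) * (s - 1) ^ q := by
        rw [pow_add (s - 1), pow_mul (s - 1), mul_pow]; ring
    _ ≤ (s ^ s) ^ (t + 1) * s ^ q :=
        Nat.mul_le_mul (Nat.pow_le_pow_left (bern s hs) _) (Nat.pow_le_pow_left (by omega) _)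
    _ = s ^ (s * (t + 1) + q) := by rw [← pow_mul, ← pow_add]

theorem num_split (s t P f g f₀ g₁ : ℕ) (hs : 1 ≤ s) (ht : 1 ≤ t) (hP : s * (t + 1) ≤ P)
    (hf : 2 ≤ f) (hg : 2 ≤ g) (hf₀ : s * f₀ + f ≤ s * f) (hg₁ : 2 ^ t * g₁ + g ≤ 2 ^ t * g) :
    2 + (f₀ * g) ^ P + (f * g₁) ^ P ≤ (f * g) ^ P := by
  have hP2 : t + 1 ≤ P := le_trans (Nat.le_mul_of_pos_left _ hs) hP
  have hA : 2 ^ (t + 1) * f₀ ^ P ≤ f ^ P := by
    have h1 : s * f₀ ≤ (s - 1) * f := by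
      rw [Nat.sub_mul, one_mul]; omega
    have h2 : (s * f₀) ^ P ≤ ((s - 1) * f) ^ P := Nat.pow_le_pow_left h1 P
    rw [mul_pow, mul_pow] at h2
    have h3 := bern_pow s t P hs hP
    have h4 : s ^ P * (2 ^ (t + 1) * f₀ ^ P) ≤ s ^ P * f ^ P := by
      calc s ^ P * (2 ^ (t + 1) * f₀ ^ P) = 2 ^ (t + 1) * (s ^ P * f₀ ^ P) := by ring
        _ ≤ 2 ^ (t + 1) * ((s - 1) ^ P * f ^ P) := Nat.mul_le_mul_left _ h2
        _ = (2 ^ (t + 1) * (s - 1) ^ P) * f ^ P := by ring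
        _ ≤ s ^ P * f ^ P := Nat.mul_le_mul_right _ h3
    exact Nat.le_of_mul_le_mul_left h4 (Nat.pow_pos (by omega))
  have hB : 2 ^ t * g₁ ^ P ≤ (2 ^ t - 1) * g ^ P := by
    set T := 2 ^ t with hT
    have hT1 : 1 ≤ T := Nat.one_le_two_pow
    have h1 : T * g₁ ≤ (T - 1) * g := by
      rw [Nat.sub_mul, one_mul]; omega
    have h2 : (T * g₁) ^ P ≤ ((T - 1) * g) ^ P := Nat.pow_le_pow_left h1 P
    rw [mul_pow, mul_pow] at h2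
    obtain ⟨Q, rfl⟩ : ∃ Q, P = Q + 1 := ⟨P - 1, by omega⟩
    have h3 : (T - 1) ^ (Q + 1) ≤ T ^ Q * (T - 1) := by
      rw [pow_succ]; exact Nat.mul_le_mul_right _ (Nat.pow_le_pow_left (by omega) _)
    have h4 : T ^ Q * (T * g₁ ^ (Q + 1)) ≤ T ^ Q * ((T - 1) * g ^ (Q + 1)) := by
      calc T ^ Q * (T * g₁ ^ (Q + 1)) = T ^ (Q + 1) * g₁ ^ (Q + 1) := by ring
        _ ≤ (T - 1) ^ (Q + 1) * g ^ (Q + 1) := h2
        _ ≤ (T ^ Q * (T - 1)) * g ^ (Q + 1) := Nat.mul_le_mul_right _ h3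
        _ = _ := by ring
    exact Nat.le_of_mul_le_mul_left h4 (Nat.pow_pos (by omega))
  have hT1 : 1 ≤ 2 ^ t := Nat.one_le_two_pow
  have hC : 2 ^ (t + 1) * (f₀ * g) ^ P ≤ (f * g) ^ P := by
    rw [mul_pow, mul_pow, ← mul_assoc]; exact Nat.mul_le_mul_right _ hA
  have hD : 2 ^ (t + 1) * (f * g₁) ^ P + 2 * (f * g) ^ P ≤ 2 ^ (t + 1) * (f * g) ^ P := by
    have h5 : 2 ^ t * g₁ ^ P + g ^ P ≤ 2 ^ t * g ^ P := by
      calc 2 ^ t * g₁ ^ P + g ^ P ≤ (2 ^ t - 1) * g ^ P + g ^ P := Nat.add_le_add_right hB _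
        _ = (2 ^ t - 1 + 1) * g ^ P := by ring
        _ = 2 ^ t * g ^ P := by rw [Nat.sub_add_cancel hT1]
    calc 2 ^ (t + 1) * (f * g₁) ^ P + 2 * (f * g) ^ P
        = 2 * f ^ P * (2 ^ t * g₁ ^ P + g ^ P) := by rw [mul_pow, mul_pow]; ring
      _ ≤ 2 * f ^ P * (2 ^ t * g ^ P) := Nat.mul_le_mul_left _ h5
      _ = _ := by rw [mul_pow]; ring
  have hE : 2 ^ (t + 1) * 2 ≤ (f * g) ^ P := by
    have h6 : 4 ≤ f * g := by nlinarith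
    calc 2 ^ (t + 1) * 2 = 2 ^ (t + 2) := by ring
      _ ≤ 2 ^ (2 * (t + 1)) := Nat.pow_le_pow_right (by norm_num) (by omega)
      _ = 4 ^ (t + 1) := by rw [pow_mul]; norm_num
      _ ≤ 4 ^ P := Nat.pow_le_pow_right (by norm_num) hP2
      _ ≤ _ := Nat.pow_le_pow_left h6 _
  have hF : 2 ^ (t + 1) * (2 + (f₀ * g) ^ P + (f * g₁) ^ P) ≤ 2 ^ (t + 1) * (f * g) ^ P := by
    nlinarith
  exact Nat.le_of_mul_le_mul_left hF (Nat.pow_pos (by norm_num))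

theorem num_expand (t P n f g b : ℕ) (hP2 : 2 ≤ P) (hP : n + 2 ≤ t * P) (hf : 2 ≤ f) (hg : 2 ≤ g)
    (hfg : f * g < 2 ^ (n + 1)) (hb : 2 ^ t * b < g) :
    1 + f + (f * (g - 1)) ^ P + f * (f * b) ^ P ≤ (f * g) ^ P := by
  obtain ⟨Q, rfl⟩ : ∃ Q, P = Q + 1 := ⟨P - 1, by omega⟩
  set Y := f ^ (Q + 1) * g ^ Q with hY
  have h1 : 2 * f * g * b ^ (Q + 1) ≤ g ^ (Q + 1) := by
    have ha : (2 ^ t * b) ^ (Q + 1) ≤ g ^ (Q + 1) := Nat.pow_le_pow_left hb.le _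
    rw [mul_pow, ← pow_mul] at ha
    have hc : 2 * f * g ≤ 2 ^ (t * (Q + 1)) := by
      calc 2 * f * g = 2 * (f * g) := by ring
        _ ≤ 2 * 2 ^ (n + 1) := by omega
        _ = 2 ^ (n + 2) := by ring
        _ ≤ _ := Nat.pow_le_pow_right (by norm_num) hP
    exact le_trans (Nat.mul_le_mul_right _ hc) ha
  have h2 : 2 * (f * (f * b) ^ (Q + 1)) ≤ Y := by
    have h3 : g * (2 * (f * (f * b) ^ (Q + 1))) ≤ g * Y := by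
      calc g * (2 * (f * (f * b) ^ (Q + 1))) = f ^ (Q + 1) * (2 * f * g * b ^ (Q + 1)) := by
            rw [mul_pow]; ring
        _ ≤ f ^ (Q + 1) * g ^ (Q + 1) := Nat.mul_le_mul_left _ h1
        _ = g * Y := by rw [hY]; ring
    exact Nat.le_of_mul_le_mul_left h3 (by omega)
  have h4 : (f * (g - 1)) ^ (Q + 1) + Y ≤ (f * g) ^ (Q + 1) := by
    have h5 : (g - 1) ^ (Q + 1) + g ^ Q ≤ g ^ (Q + 1) := by
      calc (g - 1) ^ (Q + 1) + g ^ Q ≤ g ^ Q * (g - 1) + g ^ Q := by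
            rw [pow_succ]
            exact Nat.add_le_add_right (Nat.mul_le_mul_right _ (Nat.pow_le_pow_left (by omega) _)) _
        _ = g ^ Q * (g - 1 + 1) := by ring
        _ = g ^ (Q + 1) := by rw [Nat.sub_add_cancel (by omega : 1 ≤ g)]; ring
    calc (f * (g - 1)) ^ (Q + 1) + Y = f ^ (Q + 1) * ((g - 1) ^ (Q + 1) + g ^ Q) := by
          rw [mul_pow, hY]; ring
      _ ≤ f ^ (Q + 1) * g ^ (Q + 1) := Nat.mul_le_mul_left _ h5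
      _ = _ := by rw [mul_pow]
  have h6 : 2 * (1 + f) ≤ Y := by
    have h7 : 2 ≤ g ^ Q := by
      calc 2 ≤ g ^ 1 := by simpa using hg
        _ ≤ g ^ Q := Nat.pow_le_pow_right (by omega) (by omega)
    have h8 : f ^ 2 ≤ f ^ (Q + 1) := Nat.pow_le_pow_right (by omega) (by omega)
    calc 2 * (1 + f) ≤ 2 * f ^ 2 := by nlinarith
      _ ≤ f ^ (Q + 1) * g ^ Q := by
        rw [mul_comm]; exact Nat.mul_le_mul h8 h7
  omega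

end Pool.Agent.Helper81.VCD
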