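import Mathlib
import Pool.Agent.Helper81.VCD.Defs
import Pool.Agent.Helper81.VCD.Num

/-!
# VCD-12: the number of calls (uses VCD-11 as black box; 80-140 lines)

PROOF. Induction on the run (all `F`, `G`; `n` fixed), claim: `|F| |G| < 2^(n+1) → k ≤ (|F||G|)^P + 1`.
In the recursive cases `f = |F| ≥ 2`, `g = |G| ≥ 2`. All the families in the sub-pairs have at most as
many members as `F`, `G` (`Finset.card_filter_le`, `Finset.card_image_le`), so the hypothesis
`|F'||G'| < 2^(n+1)` is inherited, and `Nat.pow_le_pow_left` allows to replace cardinalities by upper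
bounds. Write `a = |F_x| = #{I ∈ F | x ∈ I}`, `b = |G_x|`; `|without F x| = f - a`
(`Finset.filter_card_add_filter_neg_card_eq_card` or similar), `|link F x| ≤ a ≤ f`.
* split: case `Heavy s F x`, `Heavy (2^t) G x`, i.e. `f ≤ s a`, `g ≤ 2^t b`: with `f₀ = f - a`,
  `g₁ = g - b`: `s f₀ + f ≤ s f`, `2^t g₁ + g ≤ 2^t g`, and `k₀ ≤ (f₀ g)^P + 1`, `k₁ ≤ (f g₁)^P + 1`;
  `num_split`. The other case is symmetric (`num_split` with `f, g` exchanged, `mul_comm`).
* expandF: `Heavy s F x`, and `2^t b < g` (negation of `Heavy (2^t) G x`). `b ≥ 1`: `F_x` is nonempty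
  (`f ≤ s a`, `f ≥ 2`), and the tests say that `x` occurs in `G`. So `|without G x| ≤ g - 1`,
  `k₀ ≤ (f (g-1))^P + 1`, and for `I ∈ link F x`: `|(link G x).filter ..| ≤ b`, so
  `k I ≤ (f b)^P + 1`; `∑ ≤ |link F x| ((f b)^P + 1) ≤ f ((f b)^P + 1)`. Total
  `≤ 1 + (f (g-1))^P + 1 + f (f b)^P + f ≤ (f g)^P + 1` by `num_expand` (`P ≥ s (t+1) ≥ 2`).
* expandG: the same with the roles of `F`, `G` exchanged.
-/

set_option autoImplicit false

namespace Pool.Agent.Helper81.VCD

open Pool.Agent.Helper64.Free

variable {V : Type} [DecidableEq V]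

private lemma card_min_le (F : Finset (Finset V)) : (minimize F).card ≤ F.card :=
  Finset.card_filter_le _ _

private lemma card_min_image_le (F : Finset (Finset V)) (φ : Finset V → Finset V) :
    (minimize (F.image φ)).card ≤ F.card :=
  (card_min_le _).trans Finset.card_image_le

private lemma card_without (F : Finset (Finset V)) (x : V) :
    (without F x).card + (F.filter (fun I => x ∈ I)).card = F.card := by
  unfold without
  rw [add_comm]
  exact Finset.card_filter_add_card_filter_not _

private lemma card_link_le (F : Finset (Finset V)) (x : V) :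
    (link F x).card ≤ (F.filter (fun I => x ∈ I)).card := Finset.card_image_le

private lemma card_min_link_le (F : Finset (Finset V)) (x : V) (q : Finset V → Prop)
    [DecidablePred q] :
    (minimize ((link F x).filter q)).card ≤ (F.filter (fun I => x ∈ I)).card :=
  (card_min_le _).trans ((Finset.card_filter_le _ _).trans (card_link_le F x))

private lemma pow_bound {P n f g f' g' f'' g'' k : ℕ} (hfg : f * g < 2 ^ (n + 1))
    (ih : f' * g' < 2 ^ (n + 1) → k ≤ (f' * g') ^ P + 1) (h1 : f' ≤ f'') (h2 : g' ≤ g'')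
    (h3 : f'' ≤ f) (h4 : g'' ≤ g) : k ≤ (f'' * g'') ^ P + 1 := by
  have h5 : f' * g' ≤ f'' * g'' := Nat.mul_le_mul h1 h2
  have h6 : f'' * g'' ≤ f * g := Nat.mul_le_mul h3 h4
  have h7 := ih (by omega)
  have h8 := Nat.pow_le_pow_left h5 P
  omega

private lemma heavy_pos {s : ℕ} {F : Finset (Finset V)} {x : V} (hF : 2 ≤ F.card)
    (h : Heavy s F x) : ∃ I ∈ F, x ∈ I := by
  have h1 : F.card ≤ s * (F.filter (fun I => x ∈ I)).card := h
  have h2 : (F.filter (fun I => x ∈ I)).card ≠ 0 := by
    intro h3
    rw [h3, mul_zero] at h1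
    omega
  obtain ⟨I, hI⟩ := Finset.card_ne_zero.mp h2
  exact ⟨I, (Finset.mem_filter.mp hI).1, (Finset.mem_filter.mp hI).2⟩

private lemma filter_pos {F : Finset (Finset V)} {x : V} (h : ∃ I ∈ F, x ∈ I) :
    1 ≤ (F.filter (fun I => x ∈ I)).card := by
  obtain ⟨I, hI, hx⟩ := h
  exact Finset.card_pos.mpr ⟨I, Finset.mem_filter.mpr ⟨hI, hx⟩⟩

private lemma heavy_ineq {s f a f₀ : ℕ} (h : f ≤ s * a) (h2 : f₀ + a = f) :
    s * f₀ + f ≤ s * f := by
  calc s * f₀ + f ≤ s * f₀ + s * a := by omega
    _ = s * f := by rw [← h2]; ring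

theorem calls_le (s t P n : ℕ) (hs : 1 ≤ s) (ht : 1 ≤ t) (hP : s * (t + 1) ≤ P)
    (hn : n + 2 ≤ t * P) (F G : Finset (Finset V)) (b : Bool) (k : ℕ) (h : Alg s t F G b k)
    (hFG : F.card * G.card < 2 ^ (n + 1)) : k ≤ (F.card * G.card) ^ P + 1 := by
  have hP2 : 2 ≤ P := by
    have h1 : 1 * (1 + 1) ≤ s * (t + 1) := Nat.mul_le_mul hs (by omega)
    omega
  induction h with
  | base b h hb => omega
  | reject h hr => omega
  | @split F G x b b₀ b₁ k₀ k₁ h hT hx h₀ h₁ hb ih₀ ih₁ =>
    have hf : 2 ≤ F.card := by omega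
    have hg : 2 ≤ G.card := by omega
    have hF := card_without F x
    have hG := card_without G x
    have e0 : k₀ ≤ ((without F x).card * G.card) ^ P + 1 :=
      pow_bound hFG ih₀ le_rfl (card_min_image_le _ _) (by omega) le_rfl
    have e1 : k₁ ≤ (F.card * (without G x).card) ^ P + 1 :=
      pow_bound hFG ih₁ (card_min_image_le _ _) le_rfl le_rfl (by omega)
    rcases hx with ⟨hx1, hx2⟩ | ⟨hx1, hx2⟩
    · have := num_split s t P F.card G.card (without F x).card (without G x).card hs ht hP hf hg
        (heavy_ineq hx1 hF) (heavy_ineq hx2 hG)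
      omega
    · have := num_split s t P G.card F.card (without G x).card (without F x).card hs ht hP hg hf
        (heavy_ineq hx1 hG) (heavy_ineq hx2 hF)
      rw [mul_comm (without G x).card, mul_comm G.card, mul_comm G.card] at this
      omega
  | @expandF F G x b b₀ β k₀ k h hT hx h₀ hI hb ih₀ ihI =>
    have hf : 2 ≤ F.card := by omega
    have hg : 2 ≤ G.card := by omega
    have hF := card_without F x
    have hG := card_without G x
    have hc := filter_pos ((hT.2.1 x).mp (heavy_pos hf hx.1))
    have hc2 : 2 ^ t * (G.filter (fun I => x ∈ I)).card < G.card := not_le.mp hx.2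
    have e0 : k₀ ≤ (F.card * (G.card - 1)) ^ P + 1 :=
      pow_bound hFG ih₀ (card_min_image_le _ _) (by omega) le_rfl (by omega)
    have e1 : ∑ I ∈ link F x, k I ≤
        F.card * ((F.card * (G.filter (fun I => x ∈ I)).card) ^ P + 1) := by
      calc ∑ I ∈ link F x, k I ≤ (link F x).card •
            ((F.card * (G.filter (fun I => x ∈ I)).card) ^ P + 1) := by
            apply Finset.sum_le_card_nsmul
            intro I hI1
            exact pow_bound hFG (ihI I hI1) ((card_min_image_le _ _).trans (by omega))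
              (card_min_link_le _ _ _) le_rfl (by omega)
        _ ≤ F.card * ((F.card * (G.filter (fun I => x ∈ I)).card) ^ P + 1) := by
            rw [smul_eq_mul]
            exact Nat.mul_le_mul_right _ ((card_link_le F x).trans (by omega))
    have := num_expand t P n F.card G.card _ hP2 hn hf hg hFG hc2
    rw [mul_add, mul_one] at e1
    omega
  | @expandG F G x b b₀ β k₀ k h hT hx h₀ hJ hb ih₀ ihJ =>
    have hf : 2 ≤ F.card := by omega
    have hg : 2 ≤ G.card := by omega
    have hF := card_without F x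
    have hG := card_without G x
    have hc := filter_pos ((hT.2.1 x).mpr (heavy_pos hg hx.1))
    have hc2 : 2 ^ t * (F.filter (fun I => x ∈ I)).card < F.card := not_le.mp hx.2
    have e0 : k₀ ≤ ((F.card - 1) * G.card) ^ P + 1 :=
      pow_bound hFG ih₀ (by omega) (card_min_image_le _ _) (by omega) le_rfl
    have e1 : ∑ J ∈ link G x, k J ≤
        G.card * (((F.filter (fun I => x ∈ I)).card * G.card) ^ P + 1) := by
      calc ∑ J ∈ link G x, k J ≤ (link G x).card •
            (((F.filter (fun I => x ∈ I)).card * G.card) ^ P + 1) := by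
            apply Finset.sum_le_card_nsmul
            intro J hJ1
            exact pow_bound hFG (ihJ J hJ1) (card_min_link_le _ _ _)
              ((card_min_image_le _ _).trans (by omega)) (by omega) le_rfl
        _ ≤ G.card * (((F.filter (fun I => x ∈ I)).card * G.card) ^ P + 1) := by
            rw [smul_eq_mul]
            exact Nat.mul_le_mul_right _ ((card_link_le G x).trans (by omega))
    have := num_expand t P n G.card F.card _ hP2 hn hg hf (by rw [mul_comm]; exact hFG) hc2
    rw [mul_add, mul_one] at e1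
    rw [mul_comm G.card (F.card - 1), mul_comm G.card (F.filter (fun I => x ∈ I)).card,
      mul_comm G.card F.card] at this
    omega

end Pool.Agent.Helper81.VCD
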