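import Mathlib
import Pool.Agent.Helper81.VCD.Defs
import Pool.Agent.Helper81.VCD.Sauer

/-!
# VCD-3: the random colouring lemma (uses VCD-1; 80-150 lines)

Setting: `(F, G)` cross-intersecting and covering, `G₀ ⊆ G`, all members of `G₀` inside `W`,
every set meeting all members of `G₀` has more than `r` elements, all members of `G` have more than
`q` elements, VC-dimensions `≤ d` and `≤ D`. Then NOT both `(w+1)^d < 2^r` and `(w+1)^D < 2^q`,
`w = |W|`.

PROOF. For `R₀ ⊆ W` let `R = {v | v ∈ W → v ∈ R₀}` (everything outside `W` is red). By `hcover R`: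
(a) some `A ∈ F` has `A ⊆ R`; then `τ := A ∩ W ⊆ R₀`, and `τ` meets every `B ∈ G₀` (because
`A ∩ B ≠ ∅` and `B ⊆ W`), so `r < |τ|`; or (b) some `B ∈ G` is disjoint from `R`; then `B ⊆ W`
(elements outside `W` are in `R`) and `B ∩ R₀ = ∅`, `q < |B|`, and `B = B ∩ W`.
So `W.powerset` is covered by the sets `{R₀ ⊆ W : τ ⊆ R₀}`, `τ` a trace `A ∩ W` (`A ∈ F`) with
`|τ| ≥ r + 1`, of size `2^(w - |τ|) ≤ 2^(w-r-1)`, and the sets `{R₀ ⊆ W : R₀ ∩ B = ∅}`, `B` a trace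
of `G` on `W` with `|B| ≥ q+1`, of size `2^(w - |B|) ≤ 2^(w-q-1)`. There are at most
`(w+1)^d < 2^r` sets of the first kind, each of size `≤ 2^(w-r-1)` (and `r + 1 ≤ w` if there is one),
so they contain together `< 2^(w-1)` (or `0`) subsets, and similarly for the second kind:
`2^w < 2^(w-1) + 2^(w-1)`, contradiction (if `w = 0` both kinds are empty: `|τ| ≤ w`, `|B| ≤ w`).
TIP: `Finset.card_biUnion_le`, `Finset.card_powerset`; `{R₀ ⊆ W : τ ⊆ R₀}` is the image of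
`(W \ τ).powerset` under `(· ∪ τ)`, and `{R₀ ⊆ W : R₀ ∩ B = ∅} = (W \ B).powerset`.
-/

set_option autoImplicit false

namespace Pool.Agent.Helper81.VCD

open Pool.Agent.Helper64.Free

variable {V : Type} [DecidableEq V]

theorem vcd3_sum_lt (𝒯 : Finset (Finset V)) (W : Finset V) (r : ℕ)
    (h𝒯 : ∀ τ ∈ 𝒯, τ ⊆ W ∧ r < τ.card) (hc : 𝒯.card < 2 ^ r) :
    2 * ∑ τ ∈ 𝒯, 2 ^ (W.card - τ.card) < 2 ^ W.card := by
  rcases 𝒯.eq_empty_or_nonempty with h | ⟨τ₀, hτ₀⟩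
  · rw [h, Finset.sum_empty, mul_zero]
    positivity
  · have hw : r + 1 ≤ W.card := by
      have h1 := Finset.card_le_card (h𝒯 τ₀ hτ₀).1
      have h2 := (h𝒯 τ₀ hτ₀).2
      omega
    have h1 : ∑ τ ∈ 𝒯, 2 ^ (W.card - τ.card) ≤ 𝒯.card • 2 ^ (W.card - (r + 1)) := by
      refine Finset.sum_le_card_nsmul _ _ _ fun τ hτ => ?_
      refine Nat.pow_le_pow_right (by norm_num) ?_
      have h2 := (h𝒯 τ hτ).2
      omega
    rw [smul_eq_mul] at h1
    have h2 : 2 ^ W.card = 2 * (2 ^ r * 2 ^ (W.card - (r + 1))) := by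
      rw [← pow_add, ← pow_succ']
      congr 1
      omega
    rw [h2]
    have h3 : 𝒯.card * 2 ^ (W.card - (r + 1)) < 2 ^ r * 2 ^ (W.card - (r + 1)) :=
      Nat.mul_lt_mul_of_pos_right hc (by positivity)
    omega

theorem colouring (F G G₀ : Finset (Finset V)) (hcross : Cross F G) (hcover : Cover F G)
    (hG₀ : G₀ ⊆ G) (W : Finset V) (hW : ∀ B ∈ G₀, B ⊆ W) (r q d D : ℕ)
    (hr : ∀ T : Finset V, (∀ B ∈ G₀, (T ∩ B).Nonempty) → r < T.card)
    (hq : ∀ B ∈ G, q < B.card) (hF : F.vcDim ≤ d) (hG : G.vcDim ≤ D)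
    (h1 : (W.card + 1) ^ d < 2 ^ r) (h2 : (W.card + 1) ^ D < 2 ^ q) : False := by
  classical
  have hFc : ((F.image (fun A => A ∩ W)).filter (fun τ => r < τ.card)).card < 2 ^ r :=
    lt_of_le_of_lt ((Finset.card_filter_le _ _).trans (card_trace_le F W d hF)) h1
  have hGc : ((G.image (fun A => A ∩ W)).filter (fun τ => q < τ.card)).card < 2 ^ q :=
    lt_of_le_of_lt ((Finset.card_filter_le _ _).trans (card_trace_le G W D hG)) h2
  set 𝒯 := (F.image (fun A => A ∩ W)).filter (fun τ => r < τ.card) with h𝒯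
  set 𝒮 := (G.image (fun A => A ∩ W)).filter (fun τ => q < τ.card) with h𝒮
  have h𝒯p : ∀ τ ∈ 𝒯, τ ⊆ W ∧ r < τ.card := by
    intro τ hτ
    rw [h𝒯, Finset.mem_filter, Finset.mem_image] at hτ
    obtain ⟨⟨A, _, rfl⟩, hc⟩ := hτ
    exact ⟨Finset.inter_subset_right, hc⟩
  have h𝒮p : ∀ τ ∈ 𝒮, τ ⊆ W ∧ q < τ.card := by
    intro τ hτ
    rw [h𝒮, Finset.mem_filter, Finset.mem_image] at hτ
    obtain ⟨⟨A, _, rfl⟩, hc⟩ := hτ
    exact ⟨Finset.inter_subset_right, hc⟩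
  have hs1 := vcd3_sum_lt 𝒯 W r h𝒯p hFc
  have hs2 := vcd3_sum_lt 𝒮 W q h𝒮p hGc
  have hsub : W.powerset ⊆ (𝒯.biUnion fun τ => Finset.Icc τ W) ∪
      (𝒮.biUnion fun B => (W \ B).powerset) := by
    intro R₀ hR₀
    rw [Finset.mem_powerset] at hR₀
    rw [Finset.mem_union, Finset.mem_biUnion, Finset.mem_biUnion]
    rcases hcover {v | v ∈ W → v ∈ R₀} with ⟨A, hA, hAR⟩ | ⟨B, hB, hBR⟩
    · left
      refine ⟨A ∩ W, ?_, ?_⟩
      · rw [h𝒯, Finset.mem_filter, Finset.mem_image]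
        refine ⟨⟨A, hA, rfl⟩, hr _ fun B hB => ?_⟩
        obtain ⟨v, hv⟩ := hcross A hA B (hG₀ hB)
        rw [Finset.mem_inter] at hv
        exact ⟨v, Finset.mem_inter.2 ⟨Finset.mem_inter.2 ⟨hv.1, hW B hB hv.2⟩, hv.2⟩⟩
      · rw [Finset.mem_Icc]
        refine ⟨?_, hR₀⟩
        intro v hv
        rw [Finset.mem_inter] at hv
        exact hAR v hv.1 hv.2
    · right
      have hBW : B ⊆ W := by
        intro v hv
        by_contra hvW
        exact hBR v hv fun h => absurd h hvW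
      refine ⟨B, ?_, ?_⟩
      · rw [h𝒮, Finset.mem_filter, Finset.mem_image]
        exact ⟨⟨B, hB, Finset.inter_eq_left.2 hBW⟩, hq B hB⟩
      · rw [Finset.mem_powerset]
        intro v hv
        rw [Finset.mem_sdiff]
        exact ⟨hR₀ hv, fun hvB => hBR v hvB fun _ => hv⟩
  have hcard : 2 ^ W.card ≤ ∑ τ ∈ 𝒯, 2 ^ (W.card - τ.card) + ∑ τ ∈ 𝒮, 2 ^ (W.card - τ.card) := by
    calc 2 ^ W.card = W.powerset.card := (Finset.card_powerset W).symm
      _ ≤ ((𝒯.biUnion fun τ => Finset.Icc τ W) ∪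
          (𝒮.biUnion fun B => (W \ B).powerset)).card := Finset.card_le_card hsub
      _ ≤ (𝒯.biUnion fun τ => Finset.Icc τ W).card +
          (𝒮.biUnion fun B => (W \ B).powerset).card := Finset.card_union_le _ _
      _ ≤ ∑ τ ∈ 𝒯, (Finset.Icc τ W).card + ∑ τ ∈ 𝒮, (W \ τ).powerset.card :=
          add_le_add Finset.card_biUnion_le Finset.card_biUnion_le
      _ = ∑ τ ∈ 𝒯, 2 ^ (W.card - τ.card) + ∑ τ ∈ 𝒮, 2 ^ (W.card - τ.card) := by
          congr 1
          · refine Finset.sum_congr rfl fun τ hτ => ?_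
            exact Finset.card_Icc_finset (h𝒯p τ hτ).1
          · refine Finset.sum_congr rfl fun τ hτ => ?_
            rw [Finset.card_powerset, Finset.card_sdiff_of_subset (h𝒮p τ hτ).1]
  omega

end Pool.Agent.Helper81.VCD
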