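import Mathlib
import Pool.Agent.Helper81.VCD.Defs

/-!
# VCD-9: dual pairs = antichains that are cross-intersecting and covering (Mathlib only; 80-120 lines)

* `minimize_*`: `minimize F` is the family of the minimal members of `F`; every member of `F` contains
  a member of `minimize F` (take a member of `F` below it of minimal cardinality, or use
  `Finset.exists_le_minimal`).
* `dual_iff`, direction `→`: `Cross`: `B ∈ G` is a transversal of `F`. `Cover`: given `R`, suppose that
  no `A ∈ F` is contained in `R`. Then `T = (F.sup id).filter (· ∉ R)` (classical) meets every `A ∈ F`; a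
  minimal transversal `T' ⊆ T` (finite well-foundedness) is in `G` and disjoint from `R`.
  Direction `←` (`F`, `G` antichains): `T ∈ G` is a transversal of `F` (Cross); if `S ⊂ T` were a
  transversal of `F`, then `Cover` for `R = complement of S` gives `A ⊆ R`, impossible, or `B ∈ G` with
  `B ⊆ S ⊂ T`, contradicting the antichain property; conversely if `T` is a minimal transversal of
  `F`, `Cover` for the complement of `T` gives `B ∈ G`, `B ⊆ T`; `B` is a transversal (Cross), so
  `B = T`. The other half is the same with `cover_symm`, `cross_symm`.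
  (`Minimal P T ↔ P T ∧ ∀ S, P S → S ≤ T → T ≤ S`.)
* `dual_antichain`: two members `T ⊆ T'` of `G` are both minimal transversals, so equal.
-/

set_option autoImplicit false

namespace Pool.Agent.Helper81.VCD

open Pool.Agent.Helper64.Free

variable {V : Type} [DecidableEq V]

theorem cross_symm {F G : Finset (Finset V)} (h : Cross F G) : Cross G F := by
  intro B hB A hA
  rw [Finset.inter_comm]
  exact h A hA B hB

theorem cover_symm {F G : Finset (Finset V)} (h : Cover F G) : Cover G F := by
  intro R
  rcases h Rᶜ with ⟨A, hA, h1⟩ | ⟨B, hB, h1⟩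
  · exact Or.inr ⟨A, hA, fun a ha => h1 a ha⟩
  · exact Or.inl ⟨B, hB, fun b hb => by
      have := h1 b hb
      rwa [Set.notMem_compl_iff] at this⟩

theorem dual_symm {F G : Finset (Finset V)} (h : IsDualPair F G) : IsDualPair G F :=
  ⟨h.2, h.1⟩

theorem minimize_subset (F : Finset (Finset V)) : minimize F ⊆ F :=
  Finset.filter_subset _ _

theorem exists_mem_minimize {F : Finset (Finset V)} {A : Finset V} (hA : A ∈ F) :
    ∃ A' ∈ minimize F, A' ⊆ A := by
  obtain ⟨b, hb, hm⟩ := F.exists_le_minimal hA
  refine ⟨b, ?_, hb⟩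
  unfold minimize
  rw [Finset.mem_filter]
  exact ⟨hm.prop, fun I' hI' hle => le_antisymm hle (hm.le_of_le hI' hle)⟩

theorem minimize_antichain (F : Finset (Finset V)) :
    IsAntichain (· ⊆ ·) (minimize F : Set (Finset V)) := by
  intro A hA B hB hne hle
  have hA' : A ∈ minimize F := hA
  have hB' : B ∈ minimize F := hB
  unfold minimize at hA' hB'
  rw [Finset.mem_filter] at hA' hB'
  exact hne (hB'.2 A hA'.1 hle)

theorem cross_minimize (F G : Finset (Finset V)) :
    Cross (minimize F) (minimize G) ↔ Cross F G := by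
  constructor
  · intro h A hA B hB
    obtain ⟨A', hA', hAA⟩ := exists_mem_minimize hA
    obtain ⟨B', hB', hBB⟩ := exists_mem_minimize hB
    exact (h A' hA' B' hB').mono (Finset.inter_subset_inter hAA hBB)
  · intro h A hA B hB
    exact h A (minimize_subset F hA) B (minimize_subset G hB)

theorem cover_minimize (F G : Finset (Finset V)) :
    Cover (minimize F) (minimize G) ↔ Cover F G := by
  constructor
  · intro h R
    rcases h R with ⟨A, hA, h1⟩ | ⟨B, hB, h1⟩
    · exact Or.inl ⟨A, minimize_subset F hA, h1⟩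
    · exact Or.inr ⟨B, minimize_subset G hB, h1⟩
  · intro h R
    rcases h R with ⟨A, hA, h1⟩ | ⟨B, hB, h1⟩
    · obtain ⟨A', hA', hAA⟩ := exists_mem_minimize hA
      exact Or.inl ⟨A', hA', fun a ha => h1 a (hAA ha)⟩
    · obtain ⟨B', hB', hBB⟩ := exists_mem_minimize hB
      exact Or.inr ⟨B', hB', fun b hb => h1 b (hBB hb)⟩

/-- On antichains `minimize` does nothing. -/
theorem minimize_eq_self {F : Finset (Finset V)}
    (hF : IsAntichain (· ⊆ ·) (F : Set (Finset V))) : minimize F = F := by
  unfold minimize
  rw [Finset.filter_eq_self]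
  intro I hI I' hI' hle
  by_contra hne
  exact hF hI' hI hne hle

theorem without_antichain {F : Finset (Finset V)} (x : V)
    (hF : IsAntichain (· ⊆ ·) (F : Set (Finset V))) :
    IsAntichain (· ⊆ ·) (without F x : Set (Finset V)) := by
  apply hF.subset
  intro A hA
  have hA' : A ∈ without F x := hA
  unfold without at hA'
  exact (Finset.mem_filter.1 hA').1

private theorem antichain_of_minimal {G : Finset (Finset V)} {P : Finset V → Prop}
    (h : ∀ T, T ∈ G ↔ Minimal P T) : IsAntichain (· ⊆ ·) (G : Set (Finset V)) := by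
  intro A hA B hB hne hle
  have hA' := (h A).1 hA
  have hB' := (h B).1 hB
  exact hne (le_antisymm hle (hB'.le_of_le hA'.prop hle))

theorem dual_antichain {F G : Finset (Finset V)} (h : IsDualPair F G) :
    IsAntichain (· ⊆ ·) (F : Set (Finset V)) ∧ IsAntichain (· ⊆ ·) (G : Set (Finset V)) :=
  ⟨antichain_of_minimal h.2, antichain_of_minimal h.1⟩

theorem dual_cross {F G : Finset (Finset V)} (h : IsDualPair F G) : Cross F G := by
  intro A hA B hB
  rw [Finset.inter_comm]
  exact ((h.1 B).1 hB).prop A hA

theorem dual_cover {F G : Finset (Finset V)} (h : IsDualPair F G) : Cover F G := by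
  classical
  intro R
  by_cases hR : ∃ A ∈ F, ∀ a ∈ A, a ∈ R
  · exact Or.inl hR
  · right
    push Not at hR
    obtain ⟨T, hT, hm⟩ := exists_minimal_le_of_wellFoundedLT
      (fun S : Finset V => ∀ I ∈ F, (S ∩ I).Nonempty) ((F.biUnion id).filter (· ∉ R)) (by
        intro I hI
        obtain ⟨a, ha, haR⟩ := hR I hI
        exact ⟨a, Finset.mem_inter.2 ⟨Finset.mem_filter.2
          ⟨Finset.mem_biUnion.2 ⟨I, hI, ha⟩, haR⟩, ha⟩⟩)
    exact ⟨T, (h.1 T).2 hm, fun b hb => (Finset.mem_filter.1 (hT hb)).2⟩

/-- one half of the characterisation -/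
private theorem half {F G : Finset (Finset V)} (hG : IsAntichain (· ⊆ ·) (G : Set (Finset V)))
    (hc : Cross F G) (hv : Cover F G) (T : Finset V) :
    T ∈ G ↔ Minimal (fun S : Finset V => ∀ I ∈ F, (S ∩ I).Nonempty) T := by
  constructor
  · intro hT
    refine ⟨fun I hI => by rw [Finset.inter_comm]; exact hc I hI T hT, ?_⟩
    intro S hS hle
    rcases hv {v | v ∉ S} with ⟨A, hA, h1⟩ | ⟨B, hB, h1⟩
    · exfalso
      obtain ⟨a, ha⟩ := hS A hA
      rw [Finset.mem_inter] at ha
      exact h1 a ha.2 ha.1
    · have hBS : B ⊆ S := by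
        intro b hb
        have := h1 b hb
        simpa using this
      have hBT : B = T := by
        by_contra hne
        exact hG hB hT hne (hBS.trans hle)
      rw [← hBT]
      exact hBS
  · intro hT
    rcases hv {v | v ∉ T} with ⟨A, hA, h1⟩ | ⟨B, hB, h1⟩
    · exfalso
      obtain ⟨a, ha⟩ := hT.prop A hA
      rw [Finset.mem_inter] at ha
      exact h1 a ha.2 ha.1
    · have hBT : B ⊆ T := by
        intro b hb
        have := h1 b hb
        simpa using this
      have h2 : T ⊆ B := hT.le_of_le (fun I hI => by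
        rw [Finset.inter_comm]; exact hc I hI B hB) hBT
      have h3 : T = B := le_antisymm h2 hBT
      rw [h3]
      exact hB

theorem dual_iff {F G : Finset (Finset V)} (hF : IsAntichain (· ⊆ ·) (F : Set (Finset V)))
    (hG : IsAntichain (· ⊆ ·) (G : Set (Finset V))) :
    IsDualPair F G ↔ Cross F G ∧ Cover F G := by
  constructor
  · intro h
    exact ⟨dual_cross h, dual_cover h⟩
  · rintro ⟨hc, hv⟩
    exact ⟨half hG hc hv, half hF (cross_symm hc) (cover_symm hv)⟩

private theorem support_aux {F G : Finset (Finset V)} (h : IsDualPair F G) {x : V}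
    {A : Finset V} (hA : A ∈ F) (hx : x ∈ A) : ∃ J ∈ G, x ∈ J := by
  have hm := (h.2 A).1 hA
  by_contra hcon
  push Not at hcon
  have h1 : ∀ J ∈ G, (A.erase x ∩ J).Nonempty := by
    intro J hJ
    obtain ⟨a, ha⟩ := hm.prop J hJ
    rw [Finset.mem_inter] at ha
    refine ⟨a, Finset.mem_inter.2 ⟨Finset.mem_erase.2 ⟨?_, ha.1⟩, ha.2⟩⟩
    rintro rfl
    exact hcon J hJ ha.2
  have h2 := hm.le_of_le h1 (Finset.erase_subset x A)
  exact Finset.notMem_erase x A (h2 hx)

/-- Dual pairs have the same vertices: if `x ∈ A ∈ F` then, `A` being a minimal transversal of `G`,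
some `B ∈ G` has `A ∩ B = {x}`. -/
theorem dual_support {F G : Finset (Finset V)} (h : IsDualPair F G) (x : V) :
    (∃ I ∈ F, x ∈ I) ↔ ∃ J ∈ G, x ∈ J := by
  constructor
  · rintro ⟨I, hI, hx⟩
    exact support_aux h hI hx
  · rintro ⟨J, hJ, hx⟩
    exact support_aux (dual_symm h) hJ hx

end Pool.Agent.Helper81.VCD
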