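import Mathlib

/-!
# VCD-7: the parameters (Mathlib only, pure arithmetic; 60-120 lines)

Let `l = Nat.log 2 (d * D) + 1 ≥ 1`, so `d * D < 2^l` (`Nat.lt_pow_succ_log_self`),
`s = 4096 * (d * D) * l^2`, `L = 13 l`.
FACTS. (i) `l ≤ 2^(l-1)` (`Nat.lt_two_pow_self` for `l - 1`), so `l^2 ≤ 2^(2l-2)` and
`s < 2^12 * 2^l * 2^(2l-2) = 2^(3l+10) ≤ 2^(13 l) = 2^L`. (ii) `s ≥ 4096 * (d*D)`, `s ≥ 4096 l^2 d`,
`s ≥ 4096 l^2 D`, `s ≥ 4096 l^2`, `s/2 = 2048 (d * D) l^2`.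
CHOICE: `r = 2 L d = 26 l d`, `m = 3 r (L+3)`, `j = L D + 2`.
* `(8 s)^r * 3^m < 4^m`: `8 s < 2^(L+3)`, so `(8s)^r ≤ 2^((L+3) r) =: 2^x`, `x = r(L+3) ≥ 1`, `m = 3x`,
  and `2^x * 27^x = 54^x < 64^x = 4^(3x)`.
* `m * (2s) + 1 ≤ s^2 < 2^(2L)`: `m * 2 s = 12 L d (L+3) s`, `L + 3 ≤ 16 l`, so
  `12 * 13 l * d * 16 l * s = 2496 l^2 d s`, and `2496 l^2 d s + 1 ≤ 4096 l^2 d s ≤ s^2`. Hence
  `(m * (2s) + 1)^d < 2^(2 L d) = 2^r` (`d ≥ 1`), and
  `(m * (2s) + 1)^D ≤ 2^(2 L D)` and `2 L D = 26 l D ≤ 2048 (d*D) l^2 - 1 = s/2 - 1`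
  (strict inequality of the powers from the strict inequality of the bases, `D ≥ 1`).
* `4 j r + 1 ≤ s < 2^L`: `4 j r = 8 L d (L D + 2) ≤ 24 L^2 d D = 4056 l^2 d D` (`2 ≤ 2 L D`), and
  `4056 l^2 d D + 1 ≤ 4096 l^2 d D`. So `3 (4jr+1)^D ≤ 3 * 2^(L D) < 2^(L D + 2)`.
* `2 j r ≤ 2028 l^2 d D ≤ s / 2`.
-/

set_option autoImplicit false

namespace Pool.Agent.Helper81.VCD

theorem params (d D s : ℕ) (hd : 1 ≤ d) (hD : 1 ≤ D)
    (hs : s = 4096 * (d * D) * (Nat.log 2 (d * D) + 1) ^ 2) :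
    ∃ r m j : ℕ, (4 * (2 * s)) ^ r * 3 ^ m < 4 ^ m ∧ (m * (2 * s) + 1) ^ d < 2 ^ r ∧
      (m * (2 * s) + 1) ^ D < 2 ^ (s / 2 - 1) ∧ 3 * (4 * j * r + 1) ^ D < 2 ^ j ∧
      2 * j * r ≤ s / 2 := by
  have hdD : d * D ≠ 0 := Nat.mul_ne_zero (by omega) (by omega)
  have hk1 : d * D < 2 ^ (Nat.log 2 (d * D) + 1) := Nat.lt_pow_succ_log_self (by norm_num) _
  generalize Nat.log 2 (d * D) = k at hs hk1
  have hk2 : k + 1 ≤ 2 ^ k := Nat.lt_two_pow_self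
  -- `s < 2 ^ L`
  have hsL : s < 2 ^ (13 * (k + 1)) := by
    have h1 : (k + 1) ^ 2 ≤ (2 ^ k) ^ 2 := Nat.pow_le_pow_left hk2 2
    have h2 : 4096 * (d * D) * (k + 1) ^ 2 < 4096 * 2 ^ (k + 1) * (2 ^ k) ^ 2 := by
      have h3 : 4096 * (d * D) < 4096 * 2 ^ (k + 1) := by omega
      have h4 : 0 < (2 ^ k) ^ 2 := by positivity
      calc 4096 * (d * D) * (k + 1) ^ 2 ≤ 4096 * (d * D) * (2 ^ k) ^ 2 := Nat.mul_le_mul_left _ h1
        _ < 4096 * 2 ^ (k + 1) * (2 ^ k) ^ 2 := Nat.mul_lt_mul_of_pos_right h3 h4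
    have h5 : 4096 * 2 ^ (k + 1) * (2 ^ k) ^ 2 = 2 ^ (3 * k + 13) := by
      rw [show (4096 : ℕ) = 2 ^ 12 by norm_num, ← pow_mul, ← pow_add, ← pow_add]
      congr 1
      ring
    have h6 : 2 ^ (3 * k + 13) ≤ 2 ^ (13 * (k + 1)) := Nat.pow_le_pow_right (by norm_num) (by omega)
    omega
  have hl1 : 1 ≤ k + 1 := by omega
  generalize hl : k + 1 = l at *
  clear hk1 hk2 hl
  have hP : 1 ≤ d * D := by omega
  have hl2 : l ≤ l ^ 2 := by nlinarith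
  -- basic lower bounds of `s`
  have hd2 : d ≤ d * D := Nat.le_mul_of_pos_right d (by omega)
  have hD2 : D ≤ d * D := Nat.le_mul_of_pos_left D (by omega)
  have hs1 : 4096 * (d * l ^ 2) ≤ s := by
    rw [hs]
    calc 4096 * (d * l ^ 2) ≤ 4096 * ((d * D) * l ^ 2) :=
          Nat.mul_le_mul_left _ (Nat.mul_le_mul_right _ hd2)
      _ = 4096 * (d * D) * l ^ 2 := by ring
  have hs2 : s / 2 = 2048 * ((d * D) * l ^ 2) := by
    rw [hs, show 4096 * (d * D) * l ^ 2 = 2 * (2048 * ((d * D) * l ^ 2)) by ring]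
    simp
  have hDl : 1 ≤ D * l := Nat.mul_pos (by omega) (by omega)
  have hX : 1 ≤ (d * D) * l ^ 2 := Nat.mul_pos hP (by positivity)
  have hX2 : D * l ≤ (d * D) * l ^ 2 := Nat.mul_le_mul hD2 hl2
  have hY : 1 ≤ d * l ^ 2 := Nat.mul_pos (by omega) (by positivity)
  have hspos : 1 ≤ s := by omega
  -- the main estimate
  have hjr : (13 * l * D + 2) * (26 * l * d) ≤ 390 * ((d * D) * l ^ 2) := by
    have h1 : 13 * l * D + 2 ≤ 15 * (D * l) := by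
      have : 13 * l * D = 13 * (D * l) := by ring
      omega
    calc (13 * l * D + 2) * (26 * l * d) ≤ 15 * (D * l) * (26 * l * d) := Nat.mul_le_mul_right _ h1
      _ = 390 * ((d * D) * l ^ 2) := by ring
  have hms : 3 * (26 * l * d) * (13 * l + 3) * (2 * s) + 1 < 2 ^ (2 * (13 * l)) := by
    have h1 : 3 * (26 * l * d) * (13 * l + 3) ≤ 1248 * (d * l ^ 2) := by
      calc 3 * (26 * l * d) * (13 * l + 3) ≤ 3 * (26 * l * d) * (16 * l) :=
            Nat.mul_le_mul_left _ (by omega)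
        _ = 1248 * (d * l ^ 2) := by ring
    have h2 : 3 * (26 * l * d) * (13 * l + 3) * (2 * s) ≤ 1248 * (d * l ^ 2) * (2 * s) :=
      Nat.mul_le_mul_right _ h1
    have h3 : 1248 * (d * l ^ 2) * (2 * s) + 1 ≤ s * s := by
      have h4 : 4096 * (d * l ^ 2) * s ≤ s * s := Nat.mul_le_mul_right _ hs1
      have h5 : 1 ≤ d * l ^ 2 * s := Nat.mul_pos hY hspos
      have h6 : 1248 * (d * l ^ 2) * (2 * s) = 2496 * (d * l ^ 2 * s) := by ring
      have h7 : 4096 * (d * l ^ 2) * s = 4096 * (d * l ^ 2 * s) := by ring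
      omega
    have h8 : s * s < 2 ^ (2 * (13 * l)) := by
      rw [two_mul, pow_add]
      exact Nat.mul_lt_mul_of_lt_of_le hsL hsL.le (by positivity)
    omega
  refine ⟨26 * l * d, 3 * (26 * l * d) * (13 * l + 3), 13 * l * D + 2, ?_, ?_, ?_, ?_, ?_⟩
  · have hx : 1 ≤ (13 * l + 3) * (26 * l * d) :=
      Nat.mul_pos (by omega) (Nat.mul_pos (by omega) (by omega))
    have hm : 3 * (26 * l * d) * (13 * l + 3) = 3 * ((13 * l + 3) * (26 * l * d)) := by ring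
    have h1 : (4 * (2 * s)) ^ (26 * l * d) ≤ 2 ^ ((13 * l + 3) * (26 * l * d)) := by
      rw [pow_mul 2 (13 * l + 3)]
      apply Nat.pow_le_pow_left
      rw [pow_add]
      omega
    rw [hm]
    generalize (13 * l + 3) * (26 * l * d) = x at *
    rw [pow_mul 3 3 x, pow_mul 4 3 x]
    calc (4 * (2 * s)) ^ (26 * l * d) * (3 ^ 3) ^ x ≤ 2 ^ x * (3 ^ 3) ^ x :=
          Nat.mul_le_mul_right _ h1
      _ = (2 * 3 ^ 3) ^ x := (mul_pow _ _ _).symm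
      _ < (4 ^ 3) ^ x := Nat.pow_lt_pow_left (by norm_num) (by omega)
  · calc (3 * (26 * l * d) * (13 * l + 3) * (2 * s) + 1) ^ d < (2 ^ (2 * (13 * l))) ^ d :=
          Nat.pow_lt_pow_left hms (by omega)
      _ = 2 ^ (26 * l * d) := by
          rw [← pow_mul]
          congr 1
          ring
  · calc (3 * (26 * l * d) * (13 * l + 3) * (2 * s) + 1) ^ D < (2 ^ (2 * (13 * l))) ^ D :=
          Nat.pow_lt_pow_left hms (by omega)
      _ = 2 ^ (26 * (D * l)) := by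
          rw [← pow_mul]
          congr 1
          ring
      _ ≤ 2 ^ (s / 2 - 1) := Nat.pow_le_pow_right (by norm_num) (by omega)
  · have h1 : 4 * (13 * l * D + 2) * (26 * l * d) + 1 ≤ 2 ^ (13 * l) := by
      have h2 : 4 * (13 * l * D + 2) * (26 * l * d) = 4 * ((13 * l * D + 2) * (26 * l * d)) := by
        ring
      omega
    calc 3 * (4 * (13 * l * D + 2) * (26 * l * d) + 1) ^ D ≤ 3 * (2 ^ (13 * l)) ^ D :=
          Nat.mul_le_mul_left _ (Nat.pow_le_pow_left h1 D)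
      _ = 3 * 2 ^ (13 * l * D) := by rw [← pow_mul]
      _ < 2 ^ (13 * l * D + 2) := by
          rw [pow_add]
          have : 0 < 2 ^ (13 * l * D) := by positivity
          omega
  · have h2 : 2 * (13 * l * D + 2) * (26 * l * d) = 2 * ((13 * l * D + 2) * (26 * l * d)) := by
      ring
    omega

end Pool.Agent.Helper81.VCD
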