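import Mathlib
import Pool.Agent.Helper81.VCD.Defs
import Pool.Agent.Helper81.VCD.Sauer

/-!
# VCD-5: double sampling (uses VCD-1; 150-250 lines)

Let `H` have VC-dimension `≤ D`, and let `S : Fin N → Finset V` (`N > 0`) be sets of size `≤ r` such
that every `E ∈ H` is met by at least `2/3` of them. If `3 (4jr+1)^D < 2^j`, some union of `2j` of the
sets `S ω` meets every `E ∈ H`.

PROOF. Let `k = 2j`, `Ω = Fin N`. Suppose that for every `x : Fin k → Ω` some `E ∈ H` is missed by all
`S (x i)` (`i : Fin k`). Call `(x, y) : (Fin k → Ω) × (Fin k → Ω)` BAD if some `E ∈ H` is missed by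
all `S (x i)` and met by at least `j` of the `S (y i)` (`j ≤ #{i | (S (y i) ∩ E).Nonempty}`).
(1) At least a third of all pairs are bad, `N^(2k) ≤ 3 * #bad`. For fixed `x` take `E = E_x`. The
number of pairs `(y, i)` with `S (y i) ∩ E = ∅` is `k N^(k-1) * #{ω | S ω ∩ E = ∅} ≤ k N^k / 3`
(`3 * #miss ≤ N`); every `y` with `#{i | (S (y i) ∩ E).Nonempty} < j` has at least `j + 1` missing
indices (`k - (j-1)`), so there are at most `(2j N^k / 3) / (j+1) ≤ 2 N^k / 3` such `y`; all others
make `(x, y)` bad.
(2) For `z : Fin k → Bool` let `σ_z (x, y)` be the pair in which the `i`-th coordinates are exchanged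
whenever `z i = true`; `σ_z` is an involution of the set of all pairs, so
`2^k * #bad = ∑_z #{p | σ_z p bad} = ∑_p #{z | σ_z p bad}`.
(3) For fixed `p = (x, y)`: `#{z | σ_z p bad} ≤ (4jr+1)^D * 2^j`. Let `U` be the union of all
`S (x i)`, `S (y i)`, `|U| ≤ 2kr = 4jr`. Whether `E` meets a set `S (x i)` or `S (y i)` depends only
on the trace `τ = E ∩ U`; by `card_trace_le` there are at most `(4jr+1)^D` traces. For a trace `τ` let
`I` be the set of the `i` such that `τ` meets `S (x i)` or `S (y i)`. If `z` is such that `τ` misses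
all sets of the first component of `σ_z p` and meets at least `j` of the second, then `|I| ≥ j` and
for `i ∈ I` the value `z i` is determined (the met one has to be moved to the second component; both
met is impossible). So there are at most `2^(k - |I|) ≤ 2^j` such `z`.
(1)-(3): `2^(2j) N^(2k) ≤ 3 * 2^k * #bad ≤ 3 * N^(2k) * (4jr+1)^D * 2^j`, so `2^j ≤ 3 (4jr+1)^D`,
a contradiction. Hence some `x` works, and the union of the `S (x i)` has size `≤ k r = 2jr`.
TIP for (3): the set of such `z` injects into `(univ \ I).powerset` or `(complement of I) → Bool`; or: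
`{z | ∀ i ∈ I, z i = c i}` is `Fintype.piFinset (fun i => if i ∈ I then {c i} else univ)`, whose card
is a product (`Fintype.card_piFinset`, `Finset.prod_ite`).
If `H` is empty or `j = 0` nothing is wrong with the proof (`j = 0`: `3 * 1 < 1` is false).
-/

set_option autoImplicit false

namespace Pool.Agent.Helper81.VCD

variable {V : Type} [DecidableEq V]

open Finset

/-- the exchange of the coordinates with `z i = true` -/
private def sw {k N : ℕ} (z : Fin k → Bool) (p : (Fin k → Fin N) × (Fin k → Fin N)) :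
    (Fin k → Fin N) × (Fin k → Fin N) :=
  (fun i => if z i = true then p.2 i else p.1 i, fun i => if z i = true then p.1 i else p.2 i)

private lemma sw_sw {k N : ℕ} (z : Fin k → Bool) (p : (Fin k → Fin N) × (Fin k → Fin N)) :
    sw z (sw z p) = p := by
  unfold sw
  apply Prod.ext
  · funext i
    by_cases h : z i = true
    · simp [h]
    · simp [h]
  · funext i
    by_cases h : z i = true
    · simp [h]
    · simp [h]

/-- the number of the `y` whose `i`-th coordinate satisfies `h` -/
private lemma count_coord {k N : ℕ} (h : Fin N → Prop) [DecidablePred h] (i : Fin k) :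
    N * (univ.filter (fun y : Fin k → Fin N => h (y i))).card = (univ.filter h).card * N ^ k := by
  classical
  have h1 : (univ.filter (fun y : Fin k → Fin N => h (y i))) =
      Fintype.piFinset (fun i' => if i' = i then univ.filter h else univ) := by
    ext y
    rw [mem_filter, Fintype.mem_piFinset]
    constructor
    · rintro ⟨_, hy⟩ i'
      by_cases hi : i' = i
      · subst hi
        simp [hy]
      · simp [hi]
    · intro hy
      have := hy i
      rw [if_pos rfl, mem_filter] at this
      exact ⟨mem_univ _, this.2⟩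
  rw [h1, Fintype.card_piFinset]
  have h2 : ∀ i' : Fin k, (if i' = i then univ.filter h else (univ : Finset (Fin N))).card =
      if i' = i then (univ.filter h).card else N := by
    intro i'
    by_cases hi : i' = i
    · rw [if_pos hi, if_pos hi]
    · rw [if_neg hi, if_neg hi, card_univ, Fintype.card_fin]
  rw [prod_congr rfl fun i' _ => h2 i', ← mul_prod_erase univ _ (mem_univ i), if_pos rfl]
  have h3 : ∏ x ∈ univ.erase i, (if x = i then (univ.filter h).card else N) = N ^ (k - 1) := by
    rw [prod_congr rfl (fun x hx => if_neg (ne_of_mem_erase hx)), prod_const,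
      card_erase_of_mem (mem_univ i), card_univ, Fintype.card_fin]
  have hk : k = k - 1 + 1 := by
    have := i.isLt
    omega
  rw [h3]
  conv_rhs => rw [hk, pow_succ]
  ring

private lemma count_good {N : ℕ} (hN : 0 < N) (j : ℕ) (h : Fin N → Prop) [DecidablePred h]
    (hh : 2 * N ≤ 3 * (univ.filter h).card) :
    N ^ (2 * j) ≤ 3 * (univ.filter (fun y : Fin (2 * j) → Fin N =>
      j ≤ (univ.filter (fun i => h (y i))).card)).card := by
  classical
  -- the number of missing indices
  have hsum : ∑ y : Fin (2 * j) → Fin N, (univ.filter (fun i => ¬ h (y i))).card =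
      ∑ i : Fin (2 * j), (univ.filter (fun y : Fin (2 * j) → Fin N => ¬ h (y i))).card := by
    simp_rw [card_filter]
    exact sum_comm
  have hm : 3 * (univ.filter (fun ω => ¬ h ω)).card ≤ N := by
    have h1 := card_filter_add_card_filter_not (s := (univ : Finset (Fin N))) h
    rw [card_univ, Fintype.card_fin] at h1
    omega
  have h2 : ∀ i : Fin (2 * j),
      3 * (univ.filter (fun y : Fin (2 * j) → Fin N => ¬ h (y i))).card ≤ N ^ (2 * j) := by
    intro i
    have h3 := count_coord (k := 2 * j) (fun ω => ¬ h ω) i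
    have h4 : N * (3 * (univ.filter (fun y : Fin (2 * j) → Fin N => ¬ h (y i))).card) ≤
        N * N ^ (2 * j) := by
      calc N * (3 * (univ.filter (fun y : Fin (2 * j) → Fin N => ¬ h (y i))).card)
          = 3 * (N * (univ.filter (fun y : Fin (2 * j) → Fin N => ¬ h (y i))).card) := by ring
        _ = (3 * (univ.filter (fun ω => ¬ h ω)).card) * N ^ (2 * j) := by rw [h3]; ring
        _ ≤ N * N ^ (2 * j) := Nat.mul_le_mul hm le_rfl
    exact Nat.le_of_mul_le_mul_left h4 hN
  have h5 : 3 * ∑ y : Fin (2 * j) → Fin N, (univ.filter (fun i => ¬ h (y i))).card ≤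
      2 * j * N ^ (2 * j) := by
    rw [hsum, mul_sum]
    calc ∑ i : Fin (2 * j), 3 * (univ.filter (fun y : Fin (2 * j) → Fin N => ¬ h (y i))).card
        ≤ ∑ _i : Fin (2 * j), N ^ (2 * j) := sum_le_sum fun i _ => h2 i
      _ = 2 * j * N ^ (2 * j) := by rw [sum_const, card_univ, Fintype.card_fin, smul_eq_mul]
  -- the bad `y`
  obtain ⟨B, hB⟩ : ∃ B : Finset (Fin (2 * j) → Fin N), B = univ.filter (fun y =>
    ¬ j ≤ (univ.filter (fun i => h (y i))).card) := ⟨_, rfl⟩
  have h6 : B.card * (j + 1) ≤
      ∑ y : Fin (2 * j) → Fin N, (univ.filter (fun i => ¬ h (y i))).card := by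
    calc B.card * (j + 1) = ∑ _y ∈ B, (j + 1) := by rw [sum_const, smul_eq_mul]
      _ ≤ ∑ y ∈ B, (univ.filter (fun i => ¬ h (y i))).card := by
          refine sum_le_sum fun y hy => ?_
          rw [hB, mem_filter] at hy
          have h7 := card_filter_add_card_filter_not (s := (univ : Finset (Fin (2 * j))))
            (fun i => h (y i))
          rw [card_univ, Fintype.card_fin] at h7
          omega
      _ ≤ ∑ y : Fin (2 * j) → Fin N, (univ.filter (fun i => ¬ h (y i))).card :=
          sum_le_sum_of_subset (subset_univ _)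
  have h8 : 3 * B.card ≤ 2 * N ^ (2 * j) := by
    have h9 : (j + 1) * (3 * B.card) ≤ (j + 1) * (2 * N ^ (2 * j)) := by
      calc (j + 1) * (3 * B.card) = 3 * (B.card * (j + 1)) := by ring
        _ ≤ 3 * ∑ y : Fin (2 * j) → Fin N, (univ.filter (fun i => ¬ h (y i))).card :=
            Nat.mul_le_mul le_rfl h6
        _ ≤ 2 * j * N ^ (2 * j) := h5
        _ ≤ (j + 1) * (2 * N ^ (2 * j)) := by nlinarith [Nat.zero_le (N ^ (2 * j))]
    exact Nat.le_of_mul_le_mul_left h9 (Nat.succ_pos j)
  have h10 := card_filter_add_card_filter_not (s := (univ : Finset (Fin (2 * j) → Fin N)))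
    (fun y => j ≤ (univ.filter (fun i => h (y i))).card)
  rw [card_univ, Fintype.card_fun, Fintype.card_fin, Fintype.card_fin] at h10
  rw [← hB] at h10
  omega

private lemma count_z {N : ℕ} (j : ℕ) (h : Fin N → Prop) [DecidablePred h]
    (p : (Fin (2 * j) → Fin N) × (Fin (2 * j) → Fin N)) :
    (univ.filter (fun z : Fin (2 * j) → Bool => (∀ i, ¬ h ((sw z p).1 i)) ∧
      j ≤ (univ.filter (fun i => h ((sw z p).2 i))).card)).card ≤ 2 ^ j := by
  classical
  obtain ⟨I, hI⟩ : ∃ I : Finset (Fin (2 * j)), I = univ.filter (fun i => h (p.1 i) ∨ h (p.2 i)) :=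
    ⟨_, rfl⟩
  by_cases hj : j ≤ I.card
  · have hsub : (univ.filter (fun z : Fin (2 * j) → Bool => (∀ i, ¬ h ((sw z p).1 i)) ∧
        j ≤ (univ.filter (fun i => h ((sw z p).2 i))).card)) ⊆
        Fintype.piFinset (fun i => if i ∈ I then {decide (¬ h (p.2 i))} else univ) := by
      intro z hz
      rw [mem_filter] at hz
      rw [Fintype.mem_piFinset]
      intro i
      by_cases hi : i ∈ I
      · rw [if_pos hi, mem_singleton]
        have h1 := hz.2.1 i
        rw [hI, mem_filter] at hi
        change ¬ h (if z i = true then p.2 i else p.1 i) at h1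
        by_cases hzi : z i = true
        · rw [if_pos hzi] at h1
          rw [hzi]
          exact (decide_eq_true h1).symm
        · rw [if_neg hzi] at h1
          have h2 : h (p.2 i) := hi.2.resolve_left h1
          have h3 : z i = false := by simpa using hzi
          rw [h3]
          simp [h2]
      · rw [if_neg hi]
        exact mem_univ _
    refine (card_le_card hsub).trans ?_
    rw [Fintype.card_piFinset]
    have h2 : ∀ i : Fin (2 * j), (if i ∈ I then ({decide (¬ h (p.2 i))} : Finset Bool)
        else univ).card = if i ∈ I then 1 else 2 := by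
      intro i
      by_cases hi : i ∈ I
      · rw [if_pos hi, if_pos hi, card_singleton]
      · rw [if_neg hi, if_neg hi, card_univ, Fintype.card_bool]
    rw [prod_congr rfl fun i _ => h2 i, prod_ite, prod_const_one, one_mul, prod_const]
    refine Nat.pow_le_pow_right (by norm_num) ?_
    have h3 := card_filter_add_card_filter_not (s := (univ : Finset (Fin (2 * j))))
      (fun i => i ∈ I)
    rw [card_univ, Fintype.card_fin, filter_univ_mem] at h3
    omega
  · have hemp : (univ.filter (fun z : Fin (2 * j) → Bool => (∀ i, ¬ h ((sw z p).1 i)) ∧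
        j ≤ (univ.filter (fun i => h ((sw z p).2 i))).card)) = ∅ := by
      rw [filter_eq_empty_iff]
      rintro z _ ⟨_, h2⟩
      refine hj (h2.trans (card_le_card fun i hi => ?_))
      rw [mem_filter] at hi
      rw [hI, mem_filter]
      refine ⟨mem_univ _, ?_⟩
      have h3 := hi.2
      change h (if z i = true then p.1 i else p.2 i) at h3
      by_cases hzi : z i = true
      · rw [if_pos hzi] at h3
        exact Or.inl h3
      · rw [if_neg hzi] at h3
        exact Or.inr h3
    rw [hemp, card_empty]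
    exact Nat.zero_le _

theorem double_sampling (H : Finset (Finset V)) (D r j N : ℕ) (hN : 0 < N)
    (S : Fin N → Finset V) (hS : ∀ ω, (S ω).card ≤ r) (hH : H.vcDim ≤ D)
    (hhit : ∀ E ∈ H, 2 * N ≤ 3 * (Finset.univ.filter (fun ω => (S ω ∩ E).Nonempty)).card)
    (hj : 3 * (4 * j * r + 1) ^ D < 2 ^ j) :
    ∃ T : Finset V, T.card ≤ 2 * j * r ∧ ∀ E ∈ H, (T ∩ E).Nonempty := by
  classical
  by_contra hcon
  push Not at hcon
  -- every `x` misses a member of `H`
  have hx : ∀ x : Fin (2 * j) → Fin N, ∃ E ∈ H, ∀ i, ¬ (S (x i) ∩ E).Nonempty := by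
    intro x
    obtain ⟨E, hE, h1⟩ := hcon (univ.biUnion fun i => S (x i)) (by
      refine (card_biUnion_le_card_mul _ _ r fun i _ => hS _).trans ?_
      rw [card_univ, Fintype.card_fin])
    refine ⟨E, hE, fun i hi => ?_⟩
    obtain ⟨v, hv⟩ := hi
    rw [mem_inter] at hv
    have h2 : v ∈ (univ.biUnion fun i => S (x i)) ∩ E :=
      mem_inter.2 ⟨mem_biUnion.2 ⟨i, mem_univ _, hv.1⟩, hv.2⟩
    rw [h1] at h2
    exact absurd h2 (notMem_empty v)
  choose Ex hEx hmiss using hx
  obtain ⟨bad, hbad⟩ : ∃ bad : (Fin (2 * j) → Fin N) × (Fin (2 * j) → Fin N) → Prop,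
    bad = fun p => ∃ E ∈ H, (∀ i, ¬ (S (p.1 i) ∩ E).Nonempty) ∧
      j ≤ (univ.filter (fun i => (S (p.2 i) ∩ E).Nonempty)).card := ⟨_, rfl⟩
  -- (1)
  have h1 : N ^ (2 * j) * N ^ (2 * j) ≤ 3 * (univ.filter bad).card := by
    have h2 : ∑ x : Fin (2 * j) → Fin N, (univ.filter (fun y : Fin (2 * j) → Fin N =>
        j ≤ (univ.filter (fun i => (S (y i) ∩ Ex x).Nonempty)).card)).card ≤
        (univ.filter bad).card := by
      rw [← card_sigma]
      refine card_le_card_of_injOn (fun q => (q.1, q.2)) ?_ ?_
      · rintro ⟨x, y⟩ hq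
        rw [mem_coe, mem_sigma, mem_filter] at hq
        rw [mem_coe, mem_filter, hbad]
        exact ⟨mem_univ _, Ex x, hEx x, hmiss x, hq.2.2⟩
      · rintro ⟨x, y⟩ _ ⟨x', y'⟩ _ h
        simp only [Prod.mk.injEq] at h
        obtain ⟨rfl, rfl⟩ := h
        rfl
    calc N ^ (2 * j) * N ^ (2 * j) = ∑ _x : Fin (2 * j) → Fin N, N ^ (2 * j) := by
          rw [sum_const, card_univ, Fintype.card_fun, Fintype.card_fin, Fintype.card_fin,
            smul_eq_mul]
      _ ≤ ∑ x : Fin (2 * j) → Fin N, 3 * (univ.filter (fun y : Fin (2 * j) → Fin N =>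
          j ≤ (univ.filter (fun i => (S (y i) ∩ Ex x).Nonempty)).card)).card :=
          sum_le_sum fun x _ => count_good hN j (fun ω => (S ω ∩ Ex x).Nonempty)
            (hhit _ (hEx x))
      _ = 3 * ∑ x : Fin (2 * j) → Fin N, (univ.filter (fun y : Fin (2 * j) → Fin N =>
          j ≤ (univ.filter (fun i => (S (y i) ∩ Ex x).Nonempty)).card)).card := by
          rw [mul_sum]
      _ ≤ 3 * (univ.filter bad).card := Nat.mul_le_mul le_rfl h2
  -- (2)
  have h2 : ∀ z : Fin (2 * j) → Bool, (univ.filter (fun p => bad (sw z p))).card =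
      (univ.filter bad).card := by
    intro z
    refine card_bij' (fun p _ => sw z p) (fun p _ => sw z p) ?_ ?_ ?_ ?_
    · intro p hp
      rw [mem_filter] at hp ⊢
      exact ⟨mem_univ _, hp.2⟩
    · intro p hp
      rw [mem_filter] at hp ⊢
      refine ⟨mem_univ _, ?_⟩
      rw [sw_sw]
      exact hp.2
    · intro p _
      exact sw_sw z p
    · intro p _
      exact sw_sw z p
  have h3 : 2 ^ (2 * j) * (univ.filter bad).card =
      ∑ p : (Fin (2 * j) → Fin N) × (Fin (2 * j) → Fin N),
        (univ.filter (fun z : Fin (2 * j) → Bool => bad (sw z p))).card := by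
    calc 2 ^ (2 * j) * (univ.filter bad).card
        = ∑ z : Fin (2 * j) → Bool, (univ.filter (fun p => bad (sw z p))).card := by
          rw [sum_congr rfl fun z _ => h2 z, sum_const, card_univ, Fintype.card_fun,
            Fintype.card_fin, Fintype.card_bool, smul_eq_mul]
      _ = _ := by
          simp_rw [card_filter]
          exact sum_comm
  -- (3)
  have h4 : ∀ p : (Fin (2 * j) → Fin N) × (Fin (2 * j) → Fin N),
      (univ.filter (fun z : Fin (2 * j) → Bool => bad (sw z p))).card ≤
        (4 * j * r + 1) ^ D * 2 ^ j := by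
    intro p
    obtain ⟨U, hU⟩ : ∃ U : Finset V, U = (univ.biUnion fun i => S (p.1 i)) ∪
      (univ.biUnion fun i => S (p.2 i)) := ⟨_, rfl⟩
    have hUc : U.card ≤ 4 * j * r := by
      rw [hU]
      refine (card_union_le _ _).trans ?_
      have e1 := card_biUnion_le_card_mul (univ : Finset (Fin (2 * j))) (fun i => S (p.1 i)) r
        (fun i _ => hS _)
      have e2 := card_biUnion_le_card_mul (univ : Finset (Fin (2 * j))) (fun i => S (p.2 i)) r
        (fun i _ => hS _)
      rw [card_univ, Fintype.card_fin] at e1 e2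
      calc _ ≤ 2 * j * r + 2 * j * r := add_le_add e1 e2
        _ = 4 * j * r := by ring
    have hS1 : ∀ i, S (p.1 i) ⊆ U := by
      intro i v hv
      rw [hU]
      exact mem_union_left _ (mem_biUnion.2 ⟨i, mem_univ _, hv⟩)
    have hS2 : ∀ i, S (p.2 i) ⊆ U := by
      intro i v hv
      rw [hU]
      exact mem_union_right _ (mem_biUnion.2 ⟨i, mem_univ _, hv⟩)
    have htr : ∀ (E A : Finset V), A ⊆ U → ((A ∩ (E ∩ U)).Nonempty ↔ (A ∩ E).Nonempty) := by
      intro E A hA
      have : A ∩ (E ∩ U) = A ∩ E := by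
        ext v
        simp only [mem_inter]
        constructor
        · rintro ⟨h1, h2, _⟩
          exact ⟨h1, h2⟩
        · rintro ⟨h1, h2⟩
          exact ⟨h1, h2, hA h1⟩
      rw [this]
    have hsub : (univ.filter (fun z : Fin (2 * j) → Bool => bad (sw z p))) ⊆
        (H.image (fun A => A ∩ U)).biUnion (fun τ => univ.filter
          (fun z : Fin (2 * j) → Bool => (∀ i, ¬ (S ((sw z p).1 i) ∩ τ).Nonempty) ∧
            j ≤ (univ.filter (fun i => (S ((sw z p).2 i) ∩ τ).Nonempty)).card)) := by
      intro z hz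
      rw [mem_filter, hbad] at hz
      obtain ⟨_, E, hE, hz1, hz2⟩ := hz
      rw [mem_biUnion]
      refine ⟨E ∩ U, mem_image_of_mem _ hE, ?_⟩
      rw [mem_filter]
      have hsw1 : ∀ i, S ((sw z p).1 i) ⊆ U := by
        intro i
        change S (if z i = true then p.2 i else p.1 i) ⊆ U
        by_cases hzi : z i = true
        · rw [if_pos hzi]; exact hS2 i
        · rw [if_neg hzi]; exact hS1 i
      have hsw2 : ∀ i, S ((sw z p).2 i) ⊆ U := by
        intro i
        change S (if z i = true then p.1 i else p.2 i) ⊆ U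
        by_cases hzi : z i = true
        · rw [if_pos hzi]; exact hS1 i
        · rw [if_neg hzi]; exact hS2 i
      refine ⟨mem_univ _, fun i hi => hz1 i ((htr E _ (hsw1 i)).1 hi), ?_⟩
      refine hz2.trans (le_of_eq ?_)
      congr 1
      ext i
      rw [mem_filter, mem_filter, htr E _ (hsw2 i)]
    refine (card_le_card hsub).trans ?_
    refine (card_biUnion_le_card_mul _ _ (2 ^ j) fun τ _ =>
      count_z j (fun ω => (S ω ∩ τ).Nonempty) p).trans ?_
    refine Nat.mul_le_mul ?_ le_rfl
    refine (card_trace_le H U D hH).trans ?_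
    exact Nat.pow_le_pow_left (by omega) D
  -- the end
  have h5 : 2 ^ (2 * j) * (univ.filter bad).card ≤
      (N ^ (2 * j) * N ^ (2 * j)) * ((4 * j * r + 1) ^ D * 2 ^ j) := by
    rw [h3]
    calc _ ≤ ∑ _p : (Fin (2 * j) → Fin N) × (Fin (2 * j) → Fin N),
          (4 * j * r + 1) ^ D * 2 ^ j := sum_le_sum fun p _ => h4 p
      _ = _ := by
          rw [sum_const, card_univ, Fintype.card_prod, Fintype.card_fun, Fintype.card_fin,
            Fintype.card_fin, smul_eq_mul]
  have hNp : 0 < N ^ (2 * j) * N ^ (2 * j) := by positivity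
  have h6 : (N ^ (2 * j) * N ^ (2 * j)) * 2 ^ (2 * j) ≤
      (N ^ (2 * j) * N ^ (2 * j)) * (3 * (4 * j * r + 1) ^ D * 2 ^ j) := by
    calc (N ^ (2 * j) * N ^ (2 * j)) * 2 ^ (2 * j)
        ≤ (3 * (univ.filter bad).card) * 2 ^ (2 * j) := Nat.mul_le_mul h1 le_rfl
      _ = 3 * (2 ^ (2 * j) * (univ.filter bad).card) := by ring
      _ ≤ 3 * ((N ^ (2 * j) * N ^ (2 * j)) * ((4 * j * r + 1) ^ D * 2 ^ j)) :=
          Nat.mul_le_mul le_rfl h5
      _ = _ := by ring
  have h7 : 2 ^ (2 * j) ≤ 3 * (4 * j * r + 1) ^ D * 2 ^ j := Nat.le_of_mul_le_mul_left h6 hNp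
  have h8 : 2 ^ j * 2 ^ j ≤ 3 * (4 * j * r + 1) ^ D * 2 ^ j := by
    rwa [← pow_add, ← two_mul]
  have h9 : 2 ^ j ≤ 3 * (4 * j * r + 1) ^ D := Nat.le_of_mul_le_mul_right h8 (by positivity)
  omega

end Pool.Agent.Helper81.VCD
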