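import Mathlib
import Pool.Agent.Helper81.VCD.Defs

/-!
# VCD-4: few edges with a large transversal number, or a distribution on small sets
(Mathlib only; 120-200 lines)

Let `H` be a family of sets of size `≤ σ`. Either there are `G₀ ⊆ H`, `|G₀| ≤ m`, such that every set
meeting all members of `G₀` has more than `r` elements, or there is a (uniform, on `Fin N`, `N > 0`)
probability distribution on sets `S ω` of size `≤ r` such that every `E ∈ H` is met by `S ω` with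
probability `≥ 2/3`.

PROOF. Assume the second alternative fails. Weight of a set `S`: `w S = (4σ)^(r - |S|)` (natural
subtraction, only sets with `|S| ≤ r` occur), weight of a family `𝒮`: `Φ 𝒮 = ∑ S ∈ 𝒮, w S`.
CLAIM (induction on `i`): there are `G₀ ⊆ H` with `|G₀| ≤ i` and a finite family
`𝒮 : Finset (Finset V)` of sets of size `≤ r` such that
(Inv) every `T` with `|T| ≤ r` meeting all members of `G₀` contains a member of `𝒮`, and
(Pot) `4^i * Φ 𝒮 ≤ 3^i * (4σ)^r`.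
`i = 0`: `G₀ = ∅`, `𝒮 = {∅}`. Step: if `𝒮 = ∅` keep everything (`Φ = 0`). Otherwise let `Ω` be the
disjoint union over `S ∈ 𝒮` of sets with `w S` elements (`Σ S : 𝒮, Fin (w S)`, transported to
`Fin N` by `Fintype.equivFin`; `N = Φ 𝒮 > 0` since `w S ≥ 1`), with `S ω` the first coordinate. Since
the second alternative fails there is `E ∈ H` with `3 * Φ(hit) < 2 * Φ 𝒮`, where
`hit = {S ∈ 𝒮 | (S ∩ E).Nonempty}`. Put `G₀' = insert E G₀` and
`𝒮' = hit ∪ {insert e S | S ∈ 𝒮, S ∩ E = ∅, |S| < r, e ∈ E}` (a `biUnion` of images).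
(Inv): let `T`, `|T| ≤ r`, meet all of `G₀'`, and let `S ∈ 𝒮`, `S ⊆ T`. If `S ∩ E ≠ ∅` take `S`.
Otherwise take `e ∈ T ∩ E`; then `e ∉ S`, `insert e S ⊆ T`, so `|S| < |T| ≤ r` and `insert e S ∈ 𝒮'`.
(Pot): for `S` not hit with `|S| < r` the at most `σ` new sets weigh together
`≤ σ (4σ)^(r-|S|-1) = w S / 4`. So
`4 Φ 𝒮' ≤ 4 Φ(hit) + Φ(not hit) = 3 Φ(hit) + Φ 𝒮 < 2 Φ 𝒮 + Φ 𝒮 = 3 Φ 𝒮`.
At `i = m`: `4^m Φ 𝒮 ≤ 3^m (4σ)^r < 4^m`, so `Φ 𝒮 = 0`, `𝒮 = ∅`, and by (Inv) every `T` meeting all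
of `G₀` has `r < |T|`.
-/

set_option autoImplicit false

namespace Pool.Agent.Helper81.VCD

variable {V : Type} [DecidableEq V]

private lemma greedy_image (s : Finset (Finset V × V)) (f : Finset V × V → Finset V)
    (w : Finset V → ℕ) : ∑ T ∈ s.image f, w T ≤ ∑ p ∈ s, w (f p) := by
  induction s using Finset.induction_on with
  | empty => simp
  | insert a s ha ih =>
    rw [Finset.image_insert, Finset.sum_insert ha]
    by_cases h : f a ∈ s.image f
    · rw [Finset.insert_eq_of_mem h]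
      omega
    · rw [Finset.sum_insert h]
      omega

private lemma greedy_pick (H : Finset (Finset V)) (r : ℕ)
    (hB : ¬ ∃ (N : ℕ) (S : Fin N → Finset V), 0 < N ∧ (∀ ω, (S ω).card ≤ r) ∧
      ∀ E ∈ H, 2 * N ≤ 3 * (Finset.univ.filter (fun ω => (S ω ∩ E).Nonempty)).card)
    (w : Finset V → ℕ) (𝒮 : Finset (Finset V)) (h𝒮 : ∀ S ∈ 𝒮, S.card ≤ r)
    (hpos : 0 < ∑ S ∈ 𝒮, w S) :
    ∃ E ∈ H, 3 * (∑ S ∈ 𝒮.filter (fun S => (S ∩ E).Nonempty), w S) < 2 * ∑ S ∈ 𝒮, w S := by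
  classical
  obtain ⟨e⟩ : Nonempty ((Σ S : 𝒮, Fin (w S.1)) ≃ Fin (Fintype.card (Σ S : 𝒮, Fin (w S.1)))) :=
    ⟨Fintype.equivFin _⟩
  have hN : Fintype.card (Σ S : 𝒮, Fin (w S.1)) = ∑ S ∈ 𝒮, w S := by
    rw [Fintype.card_sigma]
    simp only [Fintype.card_fin]
    exact Finset.sum_coe_sort 𝒮 w
  by_contra hcon
  push Not at hcon
  apply hB
  refine ⟨Fintype.card (Σ S : 𝒮, Fin (w S.1)), fun ω => (e.symm ω).1.1, ?_, ?_, ?_⟩
  · rw [hN]
    exact hpos
  · intro ω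
    exact h𝒮 _ (e.symm ω).1.2
  · intro E hE
    have h1 := hcon E hE
    have h2 : (Finset.univ.filter (fun ω : Fin (Fintype.card (Σ S : 𝒮, Fin (w S.1))) =>
        ((e.symm ω).1.1 ∩ E).Nonempty)).card =
        ∑ S ∈ 𝒮.filter (fun S => (S ∩ E).Nonempty), w S := by
      rw [Finset.card_filter, Fintype.sum_equiv e.symm _
        (fun p : (Σ S : 𝒮, Fin (w S.1)) => if (p.1.1 ∩ E).Nonempty then 1 else 0)
        (fun ω => rfl), Fintype.sum_sigma, Finset.sum_filter]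
      rw [← Finset.sum_coe_sort 𝒮 (fun S => if (S ∩ E).Nonempty then w S else 0)]
      refine Finset.sum_congr rfl fun S _ => ?_
      by_cases h : ((S : Finset V) ∩ E).Nonempty
      · simp [h]
      · simp [h]
    rw [h2, hN]
    exact h1

theorem greedy (H : Finset (Finset V)) (σ r m : ℕ) (hσ1 : 1 ≤ σ) (hσ : ∀ E ∈ H, E.card ≤ σ)
    (hm : (4 * σ) ^ r * 3 ^ m < 4 ^ m) :
    (∃ G₀ ⊆ H, G₀.card ≤ m ∧
      ∀ T : Finset V, (∀ B ∈ G₀, (T ∩ B).Nonempty) → r < T.card) ∨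
    (∃ (N : ℕ) (S : Fin N → Finset V), 0 < N ∧ (∀ ω, (S ω).card ≤ r) ∧
      ∀ E ∈ H, 2 * N ≤ 3 * (Finset.univ.filter (fun ω => (S ω ∩ E).Nonempty)).card) := by
  classical
  by_cases hB : ∃ (N : ℕ) (S : Fin N → Finset V), 0 < N ∧ (∀ ω, (S ω).card ≤ r) ∧
      ∀ E ∈ H, 2 * N ≤ 3 * (Finset.univ.filter (fun ω => (S ω ∩ E).Nonempty)).card
  · exact Or.inr hB
  left
  obtain ⟨w, hw⟩ : ∃ w : Finset V → ℕ, ∀ S, w S = (4 * σ) ^ (r - S.card) := ⟨_, fun _ => rfl⟩
  have hwpos : ∀ S, 0 < w S := by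
    intro S
    rw [hw]
    positivity
  have claim : ∀ i : ℕ, ∃ G₀ ⊆ H, G₀.card ≤ i ∧ ∃ 𝒮 : Finset (Finset V),
      (∀ S ∈ 𝒮, S.card ≤ r) ∧
      (∀ T : Finset V, T.card ≤ r → (∀ B ∈ G₀, (T ∩ B).Nonempty) → ∃ S ∈ 𝒮, S ⊆ T) ∧
      4 ^ i * ∑ S ∈ 𝒮, w S ≤ 3 ^ i * (4 * σ) ^ r := by
    intro i
    induction i with
    | zero =>
      refine ⟨∅, Finset.empty_subset _, by simp, {∅}, by simp, ?_, ?_⟩
      · intro T _ _
        exact ⟨∅, by simp, by simp⟩
      · simp [hw]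
    | succ i ih =>
      obtain ⟨G₀, hG, hGi, 𝒮, h𝒮, hinv, hpot⟩ := ih
      rcases 𝒮.eq_empty_or_nonempty with h0 | h0
      · subst h0
        exact ⟨G₀, hG, by omega, ∅, h𝒮, hinv, by simp⟩
      obtain ⟨S₀, hS₀⟩ := h0
      have hpos : 0 < ∑ S ∈ 𝒮, w S :=
        lt_of_lt_of_le (hwpos S₀) (Finset.single_le_sum (fun _ _ => Nat.zero_le _) hS₀)
      obtain ⟨E, hE, hhit⟩ := greedy_pick H r hB w 𝒮 h𝒮 hpos
      obtain ⟨hit, hhitd⟩ : ∃ hit, hit = 𝒮.filter (fun S => (S ∩ E).Nonempty) := ⟨_, rfl⟩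
      obtain ⟨nh, hnhd⟩ : ∃ nh, nh = 𝒮.filter (fun S => ¬ (S ∩ E).Nonempty) := ⟨_, rfl⟩
      obtain ⟨nr, hnrd⟩ : ∃ nr, nr = nh.filter (fun S => S.card < r) := ⟨_, rfl⟩
      have hsplit : ∑ S ∈ hit, w S + ∑ S ∈ nh, w S = ∑ S ∈ 𝒮, w S := by
        rw [hhitd, hnhd]
        exact Finset.sum_filter_add_sum_filter_not 𝒮 _ w
      rw [← hhitd] at hhit
      refine ⟨insert E G₀, ?_, ?_, hit ∪ (nr ×ˢ E).image (fun p => insert p.2 p.1), ?_, ?_, ?_⟩
      · intro B hB'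
        rcases Finset.mem_insert.1 hB' with rfl | hB'
        · exact hE
        · exact hG hB'
      · have := Finset.card_insert_le E G₀
        omega
      · intro S hS
        rcases Finset.mem_union.1 hS with hS | hS
        · rw [hhitd] at hS
          exact h𝒮 S (Finset.mem_filter.1 hS).1
        · obtain ⟨p, hp, rfl⟩ := Finset.mem_image.1 hS
          have hp1 := (Finset.mem_product.1 hp).1
          rw [hnrd] at hp1
          have h1 := (Finset.mem_filter.1 hp1).2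
          have h2 := Finset.card_insert_le p.2 p.1
          omega
      · intro T hT hTB
        obtain ⟨S, hS, hST⟩ := hinv T hT (fun B hB' => hTB B (Finset.mem_insert_of_mem hB'))
        by_cases hSE : (S ∩ E).Nonempty
        · refine ⟨S, Finset.mem_union_left _ ?_, hST⟩
          rw [hhitd]
          exact Finset.mem_filter.2 ⟨hS, hSE⟩
        · obtain ⟨e, he⟩ := hTB E (Finset.mem_insert_self _ _)
          rw [Finset.mem_inter] at he
          have heS : e ∉ S := fun h => hSE ⟨e, Finset.mem_inter.2 ⟨h, he.2⟩⟩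
          have hsub : insert e S ⊆ T := Finset.insert_subset he.1 hST
          have hcard := Finset.card_le_card hsub
          rw [Finset.card_insert_of_notMem heS] at hcard
          refine ⟨insert e S, Finset.mem_union_right _ (Finset.mem_image.2 ⟨(S, e), ?_, rfl⟩),
            hsub⟩
          rw [Finset.mem_product, hnrd, hnhd]
          exact ⟨Finset.mem_filter.2 ⟨Finset.mem_filter.2 ⟨hS, hSE⟩, by
            show S.card < r
            omega⟩, he.2⟩
      · have h1 : ∑ S ∈ hit ∪ (nr ×ˢ E).image (fun p => insert p.2 p.1), w S ≤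
            ∑ S ∈ hit, w S + ∑ p ∈ nr ×ˢ E, w (insert p.2 p.1) := by
          refine le_trans ?_ (Nat.add_le_add_left (greedy_image (nr ×ˢ E) _ w) _)
          have h2 := Finset.sum_union_inter (s₁ := hit)
            (s₂ := (nr ×ˢ E).image (fun p => insert p.2 p.1)) (f := w)
          omega
        have h2 : 4 * ∑ p ∈ nr ×ˢ E, w (insert p.2 p.1) ≤ ∑ S ∈ nh, w S := by
          have h3 : 4 * ∑ p ∈ nr ×ˢ E, w (insert p.2 p.1) ≤ ∑ S ∈ nr, w S := by
            rw [Finset.sum_product, Finset.mul_sum]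
            refine Finset.sum_le_sum fun S hS => ?_
            rw [hnrd, Finset.mem_filter, hnhd, Finset.mem_filter] at hS
            obtain ⟨⟨hS1, hS2⟩, hS3⟩ := hS
            have h4 : ∀ e ∈ E, w (insert e S) = (4 * σ) ^ (r - S.card - 1) := by
              intro e he
              have heS : e ∉ S := fun h => hS2 ⟨e, Finset.mem_inter.2 ⟨h, he⟩⟩
              rw [hw, Finset.card_insert_of_notMem heS]
              congr 1
            rw [Finset.sum_congr rfl h4, Finset.sum_const, smul_eq_mul, hw]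
            have h5 : r - S.card = (r - S.card - 1) + 1 := by omega
            calc 4 * (E.card * (4 * σ) ^ (r - S.card - 1))
                ≤ 4 * (σ * (4 * σ) ^ (r - S.card - 1)) :=
                  Nat.mul_le_mul_left _ (Nat.mul_le_mul_right _ (hσ E hE))
              _ = (4 * σ) ^ ((r - S.card - 1) + 1) := by rw [pow_succ]; ring
              _ = (4 * σ) ^ (r - S.card) := by rw [← h5]
          refine h3.trans ?_
          rw [hnrd]
          exact Finset.sum_le_sum_of_subset (Finset.filter_subset _ _)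
        have h3 : 4 * ∑ S ∈ hit ∪ (nr ×ˢ E).image (fun p => insert p.2 p.1), w S ≤
            3 * ∑ S ∈ 𝒮, w S := by omega
        calc 4 ^ (i + 1) * ∑ S ∈ hit ∪ (nr ×ˢ E).image (fun p => insert p.2 p.1), w S
            = 4 ^ i * (4 * ∑ S ∈ hit ∪ (nr ×ˢ E).image (fun p => insert p.2 p.1), w S) := by
              rw [pow_succ]; ring
          _ ≤ 4 ^ i * (3 * ∑ S ∈ 𝒮, w S) := Nat.mul_le_mul_left _ h3
          _ = 3 * (4 ^ i * ∑ S ∈ 𝒮, w S) := by ring
          _ ≤ 3 * (3 ^ i * (4 * σ) ^ r) := Nat.mul_le_mul_left _ hpot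
          _ = 3 ^ (i + 1) * (4 * σ) ^ r := by rw [pow_succ]; ring
  obtain ⟨G₀, hG, hGm, 𝒮, h𝒮, hinv, hpot⟩ := claim m
  refine ⟨G₀, hG, hGm, fun T hT => ?_⟩
  by_contra hcon
  push Not at hcon
  obtain ⟨S, hS, -⟩ := hinv T hcon hT
  have hpos : 0 < ∑ S ∈ 𝒮, w S :=
    lt_of_lt_of_le (hwpos S) (Finset.single_le_sum (fun _ _ => Nat.zero_le _) hS)
  have h1 : 4 ^ m * 1 ≤ 4 ^ m * ∑ S ∈ 𝒮, w S := Nat.mul_le_mul_left _ hpos
  have h2 : 3 ^ m * (4 * σ) ^ r = (4 * σ) ^ r * 3 ^ m := mul_comm _ _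
  omega

end Pool.Agent.Helper81.VCD
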