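import Mathlib
import Pool.Agent.Helper81.VCD.Defs

/-!
# VCD-2: the VC-dimension does not grow under minors (Mathlib only; easy, 40 lines)

PROOF of the first: if `F.image (· \ S)` shatters `T`, then `T ⊆ A \ S` for some `A`
(`Shatters.exists_superset`), so `T ∩ S = ∅` and `T ∩ (A \ S) = T ∩ A` for all `A`; so `F` shatters
`T`. Hence the shatterer of the image is contained in the shatterer of `F` (`Finset.sup_mono`).
The second is the case `S = {x}` (`Finset.erase_eq` or `Finset.sdiff_singleton_eq_erase`). The rest: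
`Finset.vcDim_mono` with `Finset.filter_subset`; `link F x` is the image of a subfamily of `F` under
`erase x`.
-/

set_option autoImplicit false

namespace Pool.Agent.Helper81.VCD

open Pool.Agent.Helper64.Free

variable {V : Type} [DecidableEq V]

theorem vcDim_image_sdiff (F : Finset (Finset V)) (S : Finset V) :
    (F.image (fun A => A \ S)).vcDim ≤ F.vcDim := by
  apply Finset.sup_mono
  intro T hT
  rw [Finset.mem_shatterer] at hT ⊢
  obtain ⟨B, hB, hTB⟩ := hT.exists_superset
  obtain ⟨A0, _, rfl⟩ := Finset.mem_image.mp hB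
  have hTS : ∀ a ∈ T, a ∉ S := fun a ha => (Finset.mem_sdiff.mp (hTB ha)).2
  intro t ht
  obtain ⟨u, hu, hut⟩ := hT ht
  obtain ⟨A, hA, rfl⟩ := Finset.mem_image.mp hu
  refine ⟨A, hA, ?_⟩
  rw [← hut]
  ext a
  simp only [Finset.mem_inter, Finset.mem_sdiff]
  constructor
  · rintro ⟨h1, h2⟩
    exact ⟨h1, h2, hTS a h1⟩
  · rintro ⟨h1, h2, _⟩
    exact ⟨h1, h2⟩

theorem vcDim_image_erase (F : Finset (Finset V)) (x : V) :
    (F.image (fun A => A.erase x)).vcDim ≤ F.vcDim := by
  have h : (fun A : Finset V => A.erase x) = fun A => A \ {x} := by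
    funext A
    rw [Finset.sdiff_singleton_eq_erase]
  rw [h]
  exact vcDim_image_sdiff F {x}

theorem vcDim_filter_le (F : Finset (Finset V)) (p : Finset V → Prop) [DecidablePred p] :
    (F.filter p).vcDim ≤ F.vcDim :=
  Finset.vcDim_mono (Finset.filter_subset _ _)

theorem vcDim_minimize_le (F : Finset (Finset V)) : (minimize F).vcDim ≤ F.vcDim :=
  Finset.vcDim_mono (Finset.filter_subset _ _)

theorem vcDim_without_le (F : Finset (Finset V)) (x : V) : (without F x).vcDim ≤ F.vcDim :=
  Finset.vcDim_mono (Finset.filter_subset _ _)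

theorem vcDim_link_le (F : Finset (Finset V)) (x : V) : (link F x).vcDim ≤ F.vcDim :=
  (vcDim_image_erase _ x).trans (Finset.vcDim_mono (Finset.filter_subset _ _))

end Pool.Agent.Helper81.VCD
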