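import Mathlib
import Pool.Agent.Helper81.VCD.Defs
import Pool.Agent.Helper81.VCD.VCMono
import Pool.Agent.Helper81.VCD.Colour
import Pool.Agent.Helper81.VCD.Greedy
import Pool.Agent.Helper81.VCD.Double

/-!
# VCD-6: the small edges have a small transversal (uses VCD-2, 3, 4, 5 as black boxes; 30-50 lines)

PROOF. `H := G.filter (card ≤ σ)` (VC-dimension `≤ D` by `vcDim_filter_le`). Apply `greedy H σ r m`.
First alternative: `G₀ ⊆ H ⊆ G`, `|G₀| ≤ m`; `W := G₀.sup id` (or `biUnion`), `|W| ≤ m σ`;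
`colouring F G G₀ ... W` gives `False`, since `(|W|+1)^d ≤ (mσ+1)^d < 2^r`,
`(|W|+1)^D ≤ (mσ+1)^D < 2^q` (`Nat.pow_le_pow_left`). Second alternative: `double_sampling`.
-/

set_option autoImplicit false

namespace Pool.Agent.Helper81.VCD

variable {V : Type} [DecidableEq V]

theorem small_transversal (F G : Finset (Finset V)) (hcross : Cross F G) (hcover : Cover F G)
    (d D σ r m j q : ℕ) (hF : F.vcDim ≤ d) (hG : G.vcDim ≤ D) (hq : ∀ B ∈ G, q < B.card)
    (hσ1 : 1 ≤ σ) (hm : (4 * σ) ^ r * 3 ^ m < 4 ^ m) (h1 : (m * σ + 1) ^ d < 2 ^ r)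
    (h2 : (m * σ + 1) ^ D < 2 ^ q) (h3 : 3 * (4 * j * r + 1) ^ D < 2 ^ j) :
    ∃ S : Finset V, S.card ≤ 2 * j * r ∧ ∀ B ∈ G, B.card ≤ σ → (S ∩ B).Nonempty := by
  set H : Finset (Finset V) := G.filter (fun B => B.card ≤ σ) with hH
  have hHD : H.vcDim ≤ D := (vcDim_filter_le G _).trans hG
  rcases greedy H σ r m hσ1 (fun E hE => (Finset.mem_filter.1 hE).2) hm with
    ⟨G₀, hG₀, hcard, hr⟩ | ⟨N, S, hN, hS, hhit⟩
  · exfalso
    have hG₀G : G₀ ⊆ G := hG₀.trans (Finset.filter_subset _ _)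
    have hW : ∀ B ∈ G₀, B ⊆ G₀.biUnion id := fun B hB =>
      Finset.subset_biUnion_of_mem id hB
    have hWc : (G₀.biUnion id).card + 1 ≤ m * σ + 1 := by
      have h4 : (G₀.biUnion id).card ≤ G₀.card * σ :=
        Finset.card_biUnion_le_card_mul _ _ _ (fun B hB => (Finset.mem_filter.1 (hG₀ hB)).2)
      have h5 : G₀.card * σ ≤ m * σ := Nat.mul_le_mul_right _ hcard
      omega
    exact colouring F G G₀ hcross hcover hG₀G _ hW r q d D hr hq hF hG
      (lt_of_le_of_lt (Nat.pow_le_pow_left hWc d) h1)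
      (lt_of_le_of_lt (Nat.pow_le_pow_left hWc D) h2)
  · obtain ⟨T, hT, hT2⟩ := double_sampling H D r j N hN S hS hHD hhit h3
    exact ⟨T, hT, fun B hB hBσ => hT2 B (Finset.mem_filter.2 ⟨hB, hBσ⟩)⟩

end Pool.Agent.Helper81.VCD
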