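import Mathlib
import Pool.Agent.Helper81.VCD.Defs
import Pool.Agent.Helper81.VCD.VCMono
import Pool.Agent.Helper81.VCD.Trans
import Pool.Agent.Helper81.VCD.Params

/-!
# VCD-8: a covering cross-intersecting pair has an edge with fewer than `s` elements
(uses VCD-2, 6, 7 as black boxes; 100-160 lines)

PROOF. Strong induction on `|U|`. Suppose every member of `F` and `G` has at least `s` elements
(`s ≥ 4096`). For a set `S` put `F/S := F.image (· \ S)` and `G - S := G.filter (Disjoint · S)`.
(`minor`) If `(F, G)` is cross-intersecting and covering then so is `(F/S, G - S)`: `(A \ S) ∩ B = A ∩ B`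
if `B ∩ S = ∅`; and for `R` apply `hcover` to `R ∪ S`: `A ⊆ R ∪ S` gives `A \ S ⊆ R`; `B` disjoint from
`R ∪ S` is in `G - S` and disjoint from `R`. The same with `F` and `G` exchanged (note
`Cover F G ↔ Cover G F` by complementing `R`, `Cross F G ↔ Cross G F`).
Step A: `small_transversal F G` with `σ = 2s`, `q = s/2 - 1` and the `r, m, j` of `params d D s`:
`S` with `|S| ≤ s/2` meets all `B ∈ G` with `|B| ≤ 2s`. Let `F₁ = F/S`, `G₁ = G - S`, `U₁ = U \ S`:
all `A ∈ F₁` have `|A| ≥ s - s/2 ≥ s/2 > s/2 - 1` (`s/2 ≥ 1`), all `B ∈ G₁` have `|B| > 2s`.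
Step B: `small_transversal G₁ F₁` (roles exchanged) with the `r, m, j` of `params D d s` (rewrite
`d * D = D * d` in `hs`), `q = s/2 - 1`: `S'` with `|S'| ≤ s/2` meets all `A ∈ F₁` with `|A| ≤ 2s`.
Let `F₂ = F₁ - S'`, `G₂ = G₁/S'`, `U₂ = U₁ \ S'`: all `A ∈ F₂` have `|A| > 2s`, all `B ∈ G₂` have
`|B| > 2s - s/2 ≥ s`. If `U₂` is smaller than `U`, the induction hypothesis gives a member of
`F₂ ∪ G₂` with fewer than `s` elements, a contradiction.
Otherwise `U ∩ S = ∅ = U₁ ∩ S'`, so `F₂ = F`, `G₂ = G`; in any case all members of `F` and `G` then have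
more than `2s - s/2 ≥ s + 1` elements. `U` is nonempty: `hcover Set.univ` gives a member `A` of `F`
(it has `≥ s ≥ 1` elements, all in `U`) or a `B ∈ G` without elements, which is impossible. Take
`v ∈ U` and apply the induction hypothesis to `F/{v}`, `G - {v}`, `U \ {v}`: all members of the two
families have at least `s` elements, a contradiction.
-/

set_option autoImplicit false

namespace Pool.Agent.Helper81.VCD

variable {V : Type} [DecidableEq V]

/-- all the hypotheses that pass to minors -/
private structure Good (d D : ℕ) (U : Finset V) (F G : Finset (Finset V)) : Prop where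
  fu : ∀ A ∈ F, A ⊆ U
  gu : ∀ B ∈ G, B ⊆ U
  cross : Cross F G
  cover : Cover F G
  hF : F.vcDim ≤ d
  hG : G.vcDim ≤ D

private theorem Good.symm {d D : ℕ} {U : Finset V} {F G : Finset (Finset V)}
    (h : Good d D U F G) : Good D d U G F where
  fu := h.gu
  gu := h.fu
  cross := by
    intro B hB A hA
    rw [Finset.inter_comm]
    exact h.cross A hA B hB
  cover := by
    intro R
    rcases h.cover Rᶜ with ⟨A, hA, hAR⟩ | ⟨B, hB, hBR⟩
    · exact Or.inr ⟨A, hA, fun a ha => hAR a ha⟩
    · exact Or.inl ⟨B, hB, fun b hb => by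
        have := hBR b hb
        simpa using this⟩
  hF := h.hG
  hG := h.hF

private theorem Good.minor {d D : ℕ} {U : Finset V} {F G : Finset (Finset V)}
    (h : Good d D U F G) (S : Finset V) :
    Good d D (U \ S) (F.image (fun A => A \ S)) (G.filter (fun B => Disjoint B S)) where
  fu := by
    intro A hA
    obtain ⟨A', hA', rfl⟩ := Finset.mem_image.mp hA
    exact Finset.sdiff_subset_sdiff (h.fu A' hA') (Finset.Subset.refl S)
  gu := by
    intro B hB
    obtain ⟨hB1, hB2⟩ := Finset.mem_filter.mp hB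
    exact Finset.subset_sdiff.mpr ⟨h.gu B hB1, hB2⟩
  cross := by
    intro A hA B hB
    obtain ⟨A', hA', rfl⟩ := Finset.mem_image.mp hA
    obtain ⟨hB1, hB2⟩ := Finset.mem_filter.mp hB
    obtain ⟨v, hv⟩ := h.cross A' hA' B hB1
    obtain ⟨hv1, hv2⟩ := Finset.mem_inter.mp hv
    refine ⟨v, Finset.mem_inter.mpr ⟨Finset.mem_sdiff.mpr ⟨hv1, ?_⟩, hv2⟩⟩
    exact fun hvS => Finset.disjoint_left.mp hB2 hv2 hvS
  cover := by
    intro R
    rcases h.cover (R ∪ (S : Set V)) with ⟨A, hA, hAR⟩ | ⟨B, hB, hBR⟩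
    · refine Or.inl ⟨A \ S, Finset.mem_image_of_mem _ hA, fun a ha => ?_⟩
      obtain ⟨ha1, ha2⟩ := Finset.mem_sdiff.mp ha
      rcases hAR a ha1 with h1 | h1
      · exact h1
      · exact absurd (Finset.mem_coe.mp h1) ha2
    · refine Or.inr ⟨B, Finset.mem_filter.mpr ⟨hB, ?_⟩, fun b hb hbR => hBR b hb (Or.inl hbR)⟩
      exact Finset.disjoint_left.mpr fun b hb hbS => hBR b hb (Or.inr (Finset.mem_coe.mpr hbS))
  hF := (vcDim_image_sdiff F S).trans h.hF
  hG := (vcDim_filter_le G _).trans h.hG

private theorem structure_aux (d D s : ℕ) (hd : 1 ≤ d) (hD : 1 ≤ D)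
    (hs : s = 4096 * (d * D) * (Nat.log 2 (d * D) + 1) ^ 2) (n : ℕ) :
    ∀ (U : Finset V) (F G : Finset (Finset V)), U.card = n → Good d D U F G →
      (∀ A ∈ F, s ≤ A.card) → (∀ B ∈ G, s ≤ B.card) → False := by
  have hs1 : 4096 ≤ s := by
    rw [hs]
    have h1 : 1 ≤ d * D := Nat.mul_pos (by omega) (by omega)
    have h2 : 1 ≤ (Nat.log 2 (d * D) + 1) ^ 2 := Nat.pos_of_ne_zero (by positivity)
    calc 4096 = 4096 * 1 * 1 := by norm_num
      _ ≤ 4096 * (d * D) * (Nat.log 2 (d * D) + 1) ^ 2 :=
          Nat.mul_le_mul (Nat.mul_le_mul_left _ h1) h2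
  have hs' : s = 4096 * (D * d) * (Nat.log 2 (D * d) + 1) ^ 2 := by
    rw [Nat.mul_comm D d]
    exact hs
  induction n using Nat.strong_induction_on with
  | _ n IH =>
    intro U F G hn hgood hF hG
    -- Step A
    obtain ⟨r, m, j, p1, p2, p3, p4, p5⟩ := params d D s hd hD hs
    obtain ⟨S, hS1, hS2⟩ := small_transversal F G hgood.cross hgood.cover d D (2 * s) r m j
      (s / 2 - 1) hgood.hF hgood.hG (fun B hB => by have := hG B hB; omega) (by omega)
      p1 p2 p3 p4
    have hgood1 := hgood.minor S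
    have hF1 : ∀ A ∈ F.image (fun A => A \ S), s - s / 2 ≤ A.card := by
      intro A hA
      obtain ⟨A', hA', rfl⟩ := Finset.mem_image.mp hA
      have h1 := hF A' hA'
      have h2 : A'.card - S.card ≤ (A' \ S).card := Finset.le_card_sdiff S A'
      show s - s / 2 ≤ (A' \ S).card
      omega
    have hG1 : ∀ B ∈ G.filter (fun B => Disjoint B S), 2 * s < B.card := by
      intro B hB
      obtain ⟨hB1, hB2⟩ := Finset.mem_filter.mp hB
      by_contra hcon
      obtain ⟨v, hv⟩ := hS2 B hB1 (by omega)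
      obtain ⟨hv1, hv2⟩ := Finset.mem_inter.mp hv
      exact Finset.disjoint_left.mp hB2 hv2 hv1
    -- Step B
    obtain ⟨r', m', j', q1, q2, q3, q4, q5⟩ := params D d s hD hd hs'
    obtain ⟨S', hS1', hS2'⟩ := small_transversal (G.filter (fun B => Disjoint B S))
      (F.image (fun A => A \ S)) hgood1.symm.cross hgood1.symm.cover D d (2 * s) r' m' j'
      (s / 2 - 1) hgood1.hG hgood1.hF (fun A hA => by have := hF1 A hA; omega) (by omega)
      q1 q2 q3 q4
    have hgood2 := (hgood1.symm.minor S').symm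
    by_cases hU : (U \ S) \ S' = U
    · have hdS : Disjoint U S := by
        have h1 : U ⊆ U \ S := by
          intro v hv
          rw [← hU] at hv
          exact (Finset.mem_sdiff.mp hv).1
        exact (Finset.subset_sdiff.mp h1).2
      have hdS' : Disjoint U S' := by
        have h1 : U ⊆ (U \ S) \ S' := by rw [hU]
        exact (Finset.subset_sdiff.mp h1).2
      have hF2 : ∀ A ∈ F, 2 * s < A.card := by
        intro A hA
        by_contra hcon
        have h1 : A \ S = A := Finset.sdiff_eq_self_of_disjoint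
          (Finset.disjoint_of_subset_left (hgood.fu A hA) hdS)
        have h2 : A ∈ F.image (fun A => A \ S) := Finset.mem_image.mpr ⟨A, hA, h1⟩
        obtain ⟨v, hv⟩ := hS2' A h2 (by omega)
        obtain ⟨hv1, hv2⟩ := Finset.mem_inter.mp hv
        exact Finset.disjoint_left.mp hdS' (hgood.fu A hA hv2) hv1
      have hG2 : ∀ B ∈ G, 2 * s < B.card := by
        intro B hB
        exact hG1 B (Finset.mem_filter.mpr ⟨hB,
          Finset.disjoint_of_subset_left (hgood.gu B hB) hdS⟩)
      obtain ⟨v, hv⟩ : U.Nonempty := by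
        rcases hgood.cover Set.univ with ⟨A, hA, -⟩ | ⟨B, hB, hB2⟩
        · have h1 : 0 < A.card := by have := hF2 A hA; omega
          obtain ⟨a, ha⟩ := Finset.card_pos.mp h1
          exact ⟨a, hgood.fu A hA ha⟩
        · have h1 : 0 < B.card := by have := hG2 B hB; omega
          obtain ⟨b, hb⟩ := Finset.card_pos.mp h1
          exact absurd (Set.mem_univ b) (hB2 b hb)
      have hlt : (U \ {v}).card < n := by
        rw [← hn]
        apply Finset.card_lt_card
        refine ⟨Finset.sdiff_subset, fun h1 => ?_⟩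
        have := h1 hv
        simp at this
      refine IH _ hlt _ _ _ rfl (hgood.minor {v}) ?_ ?_
      · intro A hA
        obtain ⟨A', hA', rfl⟩ := Finset.mem_image.mp hA
        have h1 := hF2 A' hA'
        have h2 : A'.card - ({v} : Finset V).card ≤ (A' \ {v}).card := Finset.le_card_sdiff {v} A'
        rw [Finset.card_singleton] at h2
        show s ≤ (A' \ {v}).card
        omega
      · intro B hB
        obtain ⟨hB1, -⟩ := Finset.mem_filter.mp hB
        have := hG2 B hB1
        omega
    · have hlt : ((U \ S) \ S').card < n := by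
        rw [← hn]
        apply Finset.card_lt_card
        refine ⟨fun w hw => (Finset.mem_sdiff.mp (Finset.mem_sdiff.mp hw).1).1, fun h1 => ?_⟩
        exact hU (Finset.Subset.antisymm
          (fun w hw => (Finset.mem_sdiff.mp (Finset.mem_sdiff.mp hw).1).1) h1)
      refine IH _ hlt _ _ _ rfl hgood2 ?_ ?_
      · intro A hA
        obtain ⟨hA1, hA2⟩ := Finset.mem_filter.mp hA
        by_contra hcon
        obtain ⟨v, hv⟩ := hS2' A hA1 (by omega)
        obtain ⟨hv1, hv2⟩ := Finset.mem_inter.mp hv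
        exact Finset.disjoint_left.mp hA2 hv2 hv1
      · intro B hB
        obtain ⟨B', hB', rfl⟩ := Finset.mem_image.mp hB
        have h1 := hG1 B' hB'
        have h2 : B'.card - S'.card ≤ (B' \ S').card := Finset.le_card_sdiff S' B'
        show s ≤ (B' \ S').card
        omega

theorem structure_cover (d D s : ℕ) (hd : 1 ≤ d) (hD : 1 ≤ D)
    (hs : s = 4096 * (d * D) * (Nat.log 2 (d * D) + 1) ^ 2) (U : Finset V)
    (F G : Finset (Finset V)) (hFU : ∀ A ∈ F, A ⊆ U) (hGU : ∀ B ∈ G, B ⊆ U)
    (hcross : Cross F G) (hcover : Cover F G) (hF : F.vcDim ≤ d) (hG : G.vcDim ≤ D) :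
    ∃ E ∈ F ∪ G, E.card < s := by
  by_contra hcon
  refine structure_aux d D s hd hD hs U.card U F G rfl ⟨hFU, hGU, hcross, hcover, hF, hG⟩
    (fun A hA => ?_) (fun B hB => ?_)
  · by_contra h1
    exact hcon ⟨A, Finset.mem_union_left _ hA, by omega⟩
  · by_contra h1
    exact hcon ⟨B, Finset.mem_union_right _ hB, by omega⟩

end Pool.Agent.Helper81.VCD
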