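import Mathlib
import Pool.Agent.Helper81.VCD.Defs
import Pool.Agent.Helper81.VCD.Dual
import Pool.Agent.Helper81.VCD.Struct

/-!
# VCD-14: dual pairs of small VC-dimension pass the tests (uses VCD-8, 9 as black boxes; 40-60 lines)

* `dual_small_edge`: `structure_cover` with `U = F.sup id ∪ G.sup id`, `dual_cross`, `dual_cover`.
* `dual_tests`: `Cross` and the supports by `dual_cross`, `dual_support`. Let `E ∈ F ∪ G`,
  `E.card < s`. Say `E ∈ G`. Every `A ∈ F` meets `E`, so `F ⊆ ⋃_{x ∈ E} F_x`, and if all `x ∈ E` had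
  `s * |F_x| < |F|` then (`F` nonempty, so `E` nonempty)
  `s * |F| ≤ ∑_{x ∈ E} s * |F_x| ≤ |E| * (|F| - 1) < s * |F|`, a contradiction. So some
  `x ∈ E` is `Heavy s F x`. If `E ∈ F`, the same with `G`.
-/

set_option autoImplicit false

namespace Pool.Agent.Helper81.VCD

open Pool.Agent.Helper64.Free

variable {V : Type} [DecidableEq V]

theorem dual_small_edge (d D s : ℕ) (hd : 1 ≤ d) (hD : 1 ≤ D)
    (hs : s = 4096 * (d * D) * (Nat.log 2 (d * D) + 1) ^ 2) (F G : Finset (Finset V))
    (h : IsDualPair F G) (hF : F.vcDim ≤ d) (hG : G.vcDim ≤ D) :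
    ∃ E ∈ F ∪ G, E.card < s := by
  refine structure_cover d D s hd hD hs (F.sup id ∪ G.sup id) F G ?_ ?_ (dual_cross h)
    (dual_cover h) hF hG
  · intro A hA
    exact (Finset.le_sup (f := id) hA).trans Finset.subset_union_left
  · intro A hA
    exact (Finset.le_sup (f := id) hA).trans Finset.subset_union_right

/-- If a small set `E` meets every member of `F` then some point of `E` is heavy in `F`. -/
private theorem heavy_of_meets {s : ℕ} {F : Finset (Finset V)} {E : Finset V}
    (hE : E.card < s) (hF : 1 < F.card) (hm : ∀ A ∈ F, (A ∩ E).Nonempty) :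
    ∃ x : V, Heavy s F x := by
  classical
  by_contra hc
  push Not at hc
  have h1 : F.card ≤ ∑ x ∈ E, (F.filter (fun I => x ∈ I)).card := by
    have h2 : F ⊆ E.biUnion (fun x => F.filter (fun I => x ∈ I)) := by
      intro A hA
      obtain ⟨x, hx⟩ := hm A hA
      rw [Finset.mem_inter] at hx
      rw [Finset.mem_biUnion]
      exact ⟨x, hx.2, Finset.mem_filter.mpr ⟨hA, hx.1⟩⟩
    exact le_trans (Finset.card_le_card h2) Finset.card_biUnion_le
  have h3 : ∀ x ∈ E, s * (F.filter (fun I => x ∈ I)).card ≤ F.card - 1 := by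
    intro x _
    have := hc x
    unfold Heavy at this
    omega
  have h4 : s * F.card ≤ E.card * (F.card - 1) := by
    calc s * F.card ≤ s * ∑ x ∈ E, (F.filter (fun I => x ∈ I)).card := Nat.mul_le_mul_left _ h1
      _ = ∑ x ∈ E, s * (F.filter (fun I => x ∈ I)).card := Finset.mul_sum _ _ _
      _ ≤ ∑ _x ∈ E, (F.card - 1) := Finset.sum_le_sum h3
      _ = E.card * (F.card - 1) := by rw [Finset.sum_const, smul_eq_mul]
  have h5 : E.card * (F.card - 1) ≤ s * (F.card - 1) := Nat.mul_le_mul_right _ hE.le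
  have h6 : s * (F.card - 1) < s * F.card := by
    apply Nat.mul_lt_mul_of_pos_left
    · omega
    · omega
  omega

theorem dual_tests (d D s : ℕ) (hd : 1 ≤ d) (hD : 1 ≤ D)
    (hs : s = 4096 * (d * D) * (Nat.log 2 (d * D) + 1) ^ 2) (F G : Finset (Finset V))
    (h : IsDualPair F G) (hF : F.vcDim ≤ d) (hG : G.vcDim ≤ D)
    (hm : 1 < min F.card G.card) : Tests s F G := by
  refine ⟨dual_cross h, dual_support h, ?_⟩
  obtain ⟨E, hE, hEs⟩ := dual_small_edge d D s hd hD hs F G h hF hG
  have hF1 : 1 < F.card := lt_of_lt_of_le hm (min_le_left _ _)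
  have hG1 : 1 < G.card := lt_of_lt_of_le hm (min_le_right _ _)
  have hC := dual_cross h
  rw [Finset.mem_union] at hE
  rcases hE with hE | hE
  · obtain ⟨x, hx⟩ := heavy_of_meets hEs hG1 (fun A hA => by
      rw [Finset.inter_comm]
      exact hC E hE A hA)
    exact ⟨x, Or.inr hx⟩
  · obtain ⟨x, hx⟩ := heavy_of_meets hEs hF1 (fun A hA => hC A hA E hE)
    exact ⟨x, Or.inl hx⟩

end Pool.Agent.Helper81.VCD
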