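import Mathlib
import Pool.Agent.Helper81.VCD.Defs
import Pool.Agent.Helper81.VCD.Dual

/-!
# VCD-10: correctness of the three decompositions (uses VCD-9 as black boxes; 100-160 lines)

Throughout `F`, `G` are cross-intersecting antichains. By `dual_iff` (all families in the
sub-pairs are antichains: `minimize_antichain`, `without_antichain`), `cross_minimize`, `cover_minimize`
and `minimize_eq_self` (used to write `without F x = minimize (without F x)`), everything reduces to
the following facts on the un-minimized families.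
* Cross is inherited: `(without F x, G.image (erase x))`: `A ∩ B.erase x = A ∩ B` if `x ∉ A`;
  `((without F x).image (· \ I), (link G x).filter (Disjoint · I))`: a member of the second family is
  `J = B.erase x` with `x ∈ B`, `J ∩ I = ∅`; `A ∈ F`, `x ∉ A`; `(A \ I) ∩ J = A ∩ B ≠ ∅`.
* SPLIT: `Cover F G ↔ Cover (without F x) (G.image (erase x)) ∧ Cover (F.image (erase x)) (without G x)`.
  `→`, first: given `R` use `R \ {x}`: `A ⊆ R \ {x}` gives `x ∉ A`, `A ⊆ R`; `B` disjoint from `R \ {x}`
  gives `B.erase x` disjoint from `R`. Second: use `R ∪ {x}`. `←`: given `R`, if `x ∈ R` use the second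
  (`A.erase x ⊆ R → A ⊆ R`), if `x ∉ R` the first.
* EXPANSION F: `Cover F G ↔ Cover (F.image (erase x)) (without G x) ∧
  ∀ I ∈ link F x, Cover ((without F x).image (· \ I)) ((link G x).filter (Disjoint · I))`.
  `→`: given `I = A₀.erase x`, `x ∈ A₀ ∈ F`, and `R`, use `R' = (R ∪ I) \ {x}`: `A ⊆ R'` gives `x ∉ A` and
  `A \ I ⊆ R`; `B` disjoint from `R'` is disjoint from `I` (`x ∉ I`), and meets `A₀ = insert x I`, so
  `x ∈ B`; `B.erase x ∈ link G x` is disjoint from `I` and from `R`.
  `←`: given `R`; if `x ∈ R` as before. If `x ∉ R` apply the first to `R ∪ {x}`: `B` disjoint from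
  `R ∪ {x}`: done. `A.erase x ⊆ R ∪ {x}`, i.e. `A.erase x ⊆ R`: if `x ∉ A`, done; if `x ∈ A` put
  `I = A.erase x ∈ link F x`, `I ⊆ R`, and apply the second to `I` and `R`: `A' \ I ⊆ R` with
  `x ∉ A' ∈ F` gives `A' ⊆ R`; `J = B.erase x` disjoint from `R` gives `B` disjoint from `R` (`x ∉ R`).
* EXPANSION G follows from EXPANSION F for `(G, F)` with `dual_symm`, `cross_symm`.
-/

set_option autoImplicit false

namespace Pool.Agent.Helper81.VCD

open Pool.Agent.Helper64.Free

variable {V : Type} [DecidableEq V]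

private theorem mem_without {F : Finset (Finset V)} {x : V} {A : Finset V} :
    A ∈ without F x ↔ A ∈ F ∧ x ∉ A := by
  unfold without
  exact Finset.mem_filter

private theorem mem_link {F : Finset (Finset V)} {x : V} {I : Finset V} :
    I ∈ link F x ↔ ∃ A ∈ F, x ∈ A ∧ A.erase x = I := by
  unfold link
  rw [Finset.mem_image]
  constructor
  · rintro ⟨A, hA, h⟩
    rw [Finset.mem_filter] at hA
    exact ⟨A, hA.1, hA.2, h⟩
  · rintro ⟨A, hA, hx, h⟩
    exact ⟨A, Finset.mem_filter.2 ⟨hA, hx⟩, h⟩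

private theorem mem_er {F : Finset (Finset V)} {x : V} {I : Finset V} :
    I ∈ F.image (fun J => J.erase x) ↔ ∃ A ∈ F, A.erase x = I := Finset.mem_image

/-- the duality of a pair `(H, minimize K)` -/
private theorem dual_red {H K : Finset (Finset V)}
    (hH : IsAntichain (· ⊆ ·) (H : Set (Finset V))) :
    IsDualPair H (minimize K) ↔ Cross H K ∧ Cover H K := by
  rw [dual_iff hH (minimize_antichain K)]
  have e := minimize_eq_self hH
  constructor
  · rintro ⟨h1, h2⟩
    rw [← e] at h1 h2
    exact ⟨(cross_minimize H K).1 h1, (cover_minimize H K).1 h2⟩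
  · rintro ⟨h1, h2⟩
    have h1' := (cross_minimize H K).2 h1
    have h2' := (cover_minimize H K).2 h2
    rw [e] at h1' h2'
    exact ⟨h1', h2'⟩

private theorem dual_red' {H K : Finset (Finset V)}
    (hK : IsAntichain (· ⊆ ·) (K : Set (Finset V))) :
    IsDualPair (minimize H) K ↔ Cross H K ∧ Cover H K := by
  constructor
  · intro h
    have h1 := (dual_red hK).1 (dual_symm h)
    exact ⟨cross_symm h1.1, cover_symm h1.2⟩
  · rintro ⟨h1, h2⟩
    exact dual_symm ((dual_red hK).2 ⟨cross_symm h1, cover_symm h2⟩)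

private theorem dual_red2 (H K : Finset (Finset V)) :
    IsDualPair (minimize H) (minimize K) ↔ Cross H K ∧ Cover H K := by
  rw [dual_iff (minimize_antichain H) (minimize_antichain K), cross_minimize, cover_minimize]

private theorem cross_without {F G : Finset (Finset V)} (x : V) (hc : Cross F G) :
    Cross (without F x) (G.image (fun J => J.erase x)) := by
  intro A hA B hB
  rw [mem_without] at hA
  obtain ⟨B', hB', rfl⟩ := mem_er.1 hB
  obtain ⟨a, ha⟩ := hc A hA.1 B' hB'
  rw [Finset.mem_inter] at ha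
  refine ⟨a, Finset.mem_inter.2 ⟨ha.1, Finset.mem_erase.2 ⟨?_, ha.2⟩⟩⟩
  rintro rfl
  exact hA.2 ha.1

private theorem cross_without' {F G : Finset (Finset V)} (x : V) (hc : Cross F G) :
    Cross (F.image (fun J => J.erase x)) (without G x) :=
  cross_symm (cross_without x (cross_symm hc))

private theorem cover_without {F G : Finset (Finset V)} (x : V) (hv : Cover F G) :
    Cover (without F x) (G.image (fun J => J.erase x)) := by
  intro R
  rcases hv (R \ {x}) with ⟨A, hA, h1⟩ | ⟨B, hB, h1⟩
  · left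
    refine ⟨A, mem_without.2 ⟨hA, fun hx => (h1 x hx).2 rfl⟩, fun a ha => (h1 a ha).1⟩
  · right
    refine ⟨B.erase x, mem_er.2 ⟨B, hB, rfl⟩, fun b hb hbR => ?_⟩
    rw [Finset.mem_erase] at hb
    exact h1 b hb.2 ⟨hbR, hb.1⟩

private theorem cover_without' {F G : Finset (Finset V)} (x : V) (hv : Cover F G) :
    Cover (F.image (fun J => J.erase x)) (without G x) :=
  cover_symm (cover_without x (cover_symm hv))

private theorem cross_exp {F G : Finset (Finset V)} (x : V) (hc : Cross F G) (I : Finset V) :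
    Cross ((without F x).image (fun I' => I' \ I)) ((link G x).filter (fun J => Disjoint J I)) := by
  intro A hA J hJ
  rw [Finset.mem_image] at hA
  obtain ⟨A', hA', rfl⟩ := hA
  rw [mem_without] at hA'
  rw [Finset.mem_filter] at hJ
  obtain ⟨hJ1, hJ2⟩ := hJ
  obtain ⟨B, hB, hxB, rfl⟩ := mem_link.1 hJ1
  obtain ⟨a, ha⟩ := hc A' hA'.1 B hB
  rw [Finset.mem_inter] at ha
  have hax : a ≠ x := by
    rintro rfl
    exact hA'.2 ha.1
  have haB : a ∈ B.erase x := Finset.mem_erase.2 ⟨hax, ha.2⟩
  exact ⟨a, Finset.mem_inter.2 ⟨Finset.mem_sdiff.2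
    ⟨ha.1, fun haI => (Finset.disjoint_left.1 hJ2 haB) haI⟩, haB⟩⟩

/-- the covering condition at sets containing `x` -/
private theorem cover_at_mem {F G : Finset (Finset V)} {x : V}
    (h : Cover (F.image (fun J => J.erase x)) (without G x)) {R : Set V} (hx : x ∈ R) :
    (∃ A ∈ F, ∀ a ∈ A, a ∈ R) ∨ (∃ B ∈ G, ∀ b ∈ B, b ∉ R) := by
  rcases h R with ⟨A, hA, h1⟩ | ⟨B, hB, h1⟩
  · left
    obtain ⟨A', hA', rfl⟩ := mem_er.1 hA
    refine ⟨A', hA', fun a ha => ?_⟩
    by_cases hax : a = x
    · rw [hax]; exact hx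
    · exact h1 a (Finset.mem_erase.2 ⟨hax, ha⟩)
  · right
    exact ⟨B, (mem_without.1 hB).1, h1⟩

theorem dual_split {F G : Finset (Finset V)} (x : V)
    (hF : IsAntichain (· ⊆ ·) (F : Set (Finset V))) (hG : IsAntichain (· ⊆ ·) (G : Set (Finset V)))
    (hc : Cross F G) :
    IsDualPair F G ↔
      IsDualPair (without F x) (minimize (G.image (fun J => J.erase x))) ∧
      IsDualPair (minimize (F.image (fun I => I.erase x))) (without G x) := by
  rw [dual_iff hF hG, dual_red (without_antichain x hF), dual_red' (without_antichain x hG)]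
  constructor
  · rintro ⟨_, hv⟩
    exact ⟨⟨cross_without x hc, cover_without x hv⟩, ⟨cross_without' x hc, cover_without' x hv⟩⟩
  · rintro ⟨⟨_, h1⟩, ⟨_, h2⟩⟩
    refine ⟨hc, fun R => ?_⟩
    by_cases hx : x ∈ R
    · exact cover_at_mem h2 hx
    · rcases h1 R with ⟨A, hA, h3⟩ | ⟨B, hB, h3⟩
      · left
        exact ⟨A, (mem_without.1 hA).1, h3⟩
      · right
        obtain ⟨B', hB', rfl⟩ := mem_er.1 hB
        refine ⟨B', hB', fun b hb => ?_⟩
        by_cases hbx : b = x
        · rw [hbx]; exact hx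
        · exact h3 b (Finset.mem_erase.2 ⟨hbx, hb⟩)

theorem dual_expandF {F G : Finset (Finset V)} (x : V)
    (hF : IsAntichain (· ⊆ ·) (F : Set (Finset V))) (hG : IsAntichain (· ⊆ ·) (G : Set (Finset V)))
    (hc : Cross F G) :
    IsDualPair F G ↔
      IsDualPair (minimize (F.image (fun I => I.erase x))) (without G x) ∧
      ∀ I ∈ link F x, IsDualPair (minimize ((without F x).image (fun I' => I' \ I)))
        (minimize ((link G x).filter (fun J => Disjoint J I))) := by
  rw [dual_iff hF hG, dual_red' (without_antichain x hG)]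
  constructor
  · rintro ⟨_, hv⟩
    refine ⟨⟨cross_without' x hc, cover_without' x hv⟩, fun I hI => ?_⟩
    rw [dual_red2]
    refine ⟨cross_exp x hc I, fun R => ?_⟩
    obtain ⟨A₀, hA₀, hxA₀, rfl⟩ := mem_link.1 hI
    rcases hv ((R ∪ (A₀.erase x : Finset V)) \ {x}) with ⟨A, hA, h1⟩ | ⟨B, hB, h1⟩
    · left
      refine ⟨A \ A₀.erase x, Finset.mem_image.2 ⟨A, mem_without.2
        ⟨hA, fun hx => (h1 x hx).2 rfl⟩, rfl⟩, fun a ha => ?_⟩
      rw [Finset.mem_sdiff] at ha
      rcases (h1 a ha.1).1 with h2 | h2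
      · exact h2
      · exact absurd (Finset.mem_coe.1 h2) ha.2
    · right
      have hBI : ∀ b ∈ B, b ∉ A₀.erase x := by
        intro b hb hbI
        exact h1 b hb ⟨Or.inr (Finset.mem_coe.2 hbI), (Finset.mem_erase.1 hbI).1⟩
      have hxB : x ∈ B := by
        obtain ⟨a, ha⟩ := hc A₀ hA₀ B hB
        rw [Finset.mem_inter] at ha
        by_cases hax : a = x
        · rw [← hax]; exact ha.2
        · exact absurd (Finset.mem_erase.2 ⟨hax, ha.1⟩) (hBI a ha.2)
      refine ⟨B.erase x, Finset.mem_filter.2 ⟨mem_link.2 ⟨B, hB, hxB, rfl⟩, ?_⟩,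
        fun b hb hbR => ?_⟩
      · rw [Finset.disjoint_left]
        intro b hb
        exact hBI b (Finset.mem_erase.1 hb).2
      · rw [Finset.mem_erase] at hb
        exact h1 b hb.2 ⟨Or.inl hbR, hb.1⟩
  · rintro ⟨⟨_, h1⟩, h2⟩
    refine ⟨hc, fun R => ?_⟩
    by_cases hx : x ∈ R
    · exact cover_at_mem h1 hx
    · rcases h1 (R ∪ {x}) with ⟨A, hA, h3⟩ | ⟨B, hB, h3⟩
      · obtain ⟨A', hA', rfl⟩ := mem_er.1 hA
        have h4 : ∀ a ∈ A'.erase x, a ∈ R := by
          intro a ha
          rcases h3 a ha with h5 | h5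
          · exact h5
          · exact absurd h5 (Finset.mem_erase.1 ha).1
        by_cases hxA : x ∈ A'
        · have hI : A'.erase x ∈ link F x := mem_link.2 ⟨A', hA', hxA, rfl⟩
          have h5 := ((dual_red2 _ _).1 (h2 _ hI)).2
          rcases h5 R with ⟨A, hA, h6⟩ | ⟨B, hB, h6⟩
          · left
            obtain ⟨A₁, hA₁, rfl⟩ := Finset.mem_image.1 hA
            refine ⟨A₁, (mem_without.1 hA₁).1, fun a ha => ?_⟩
            by_cases haI : a ∈ A'.erase x
            · exact h4 a haI
            · exact h6 a (Finset.mem_sdiff.2 ⟨ha, haI⟩)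
          · right
            obtain ⟨B', hB', hxB', rfl⟩ := mem_link.1 (Finset.mem_filter.1 hB).1
            refine ⟨B', hB', fun b hb => ?_⟩
            by_cases hbx : b = x
            · rw [hbx]; exact hx
            · exact h6 b (Finset.mem_erase.2 ⟨hbx, hb⟩)
        · left
          refine ⟨A', hA', fun a ha => h4 a (Finset.mem_erase.2 ⟨?_, ha⟩)⟩
          rintro rfl
          exact hxA ha
      · right
        exact ⟨B, (mem_without.1 hB).1, fun b hb hbR => h3 b hb (Or.inl hbR)⟩

theorem dual_expandG {F G : Finset (Finset V)} (x : V)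
    (hF : IsAntichain (· ⊆ ·) (F : Set (Finset V))) (hG : IsAntichain (· ⊆ ·) (G : Set (Finset V)))
    (hc : Cross F G) :
    IsDualPair F G ↔
      IsDualPair (without F x) (minimize (G.image (fun J => J.erase x))) ∧
      ∀ J ∈ link G x, IsDualPair (minimize ((link F x).filter (fun I => Disjoint I J)))
        (minimize ((without G x).image (fun J' => J' \ J))) := by
  have h := dual_expandF x hG hF (cross_symm hc)
  constructor
  · intro hd
    have h1 := h.1 (dual_symm hd)
    exact ⟨dual_symm h1.1, fun J hJ => dual_symm (h1.2 J hJ)⟩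
  · rintro ⟨h1, h2⟩
    exact dual_symm (h.2 ⟨dual_symm h1, fun J hJ => dual_symm (h2 J hJ)⟩)

end Pool.Agent.Helper81.VCD
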