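import Mathlib
import Pool.Agent.Helper81.VCD.Defs
import Pool.Agent.Helper81.VCD.VCMono
import Pool.Agent.Helper81.VCD.Dual
import Pool.Agent.Helper81.VCD.Rec
import Pool.Agent.Helper81.VCD.HeavyV

/-!
# VCD-15: every run gives the right answer (uses VCD-2, 9, 10, 14 as black boxes; 60-90 lines)

PROOF. Induction on the run (generalizing the antichain and VC hypotheses). `base`: `hb`. `reject`: if the
pair were dual, `dual_tests` contradicts `hr`; so both sides are false. `split`: `hT.1 : Cross F G`,
`dual_split x hF hG hT.1`, the induction hypotheses for the two sub-pairs (antichains by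
`without_antichain`, `minimize_antichain`; VC-dimensions by `vcDim_without_le`, `vcDim_minimize_le`,
`vcDim_image_erase`), and `hb`. `expandF`, `expandG`: the same with `dual_expandF`, `dual_expandG` and
`vcDim_image_sdiff`, `vcDim_filter_le`, `vcDim_link_le`.
-/

set_option autoImplicit false

namespace Pool.Agent.Helper81.VCD

open Pool.Agent.Helper64.Free

variable {V : Type} [DecidableEq V]

theorem answer_correct (d D s t : ℕ) (hd : 1 ≤ d) (hD : 1 ≤ D)
    (hs : s = 4096 * (d * D) * (Nat.log 2 (d * D) + 1) ^ 2) (F G : Finset (Finset V))
    (hF : IsAntichain (· ⊆ ·) (F : Set (Finset V))) (hG : IsAntichain (· ⊆ ·) (G : Set (Finset V)))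
    (hFv : F.vcDim ≤ d) (hGv : G.vcDim ≤ D) (b : Bool) (k : ℕ) (h : Alg s t F G b k) :
    b = true ↔ IsDualPair F G := by
  induction h with
  | base b h hb => exact hb
  | reject h hr =>
    constructor
    · intro h0
      exact absurd h0 (by decide)
    · intro h0
      exact absurd (dual_tests d D s hd hD hs _ _ h0 hFv hGv h) hr
  | @split F G x b b₀ b₁ k₀ k₁ h hT hx h₀ h₁ hb ih₀ ih₁ =>
    have i0 := ih₀ (without_antichain x hF) (minimize_antichain _)
      ((vcDim_without_le F x).trans hFv)
      ((vcDim_minimize_le _).trans ((vcDim_image_erase G x).trans hGv))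
    have i1 := ih₁ (minimize_antichain _) (without_antichain x hG)
      ((vcDim_minimize_le _).trans ((vcDim_image_erase F x).trans hFv))
      ((vcDim_without_le G x).trans hGv)
    rw [hb, i0, i1, dual_split x hF hG hT.1]
  | @expandF F G x b b₀ β k₀ k h hT hx h₀ hI hb ih₀ ihI =>
    have i0 := ih₀ (minimize_antichain _) (without_antichain x hG)
      ((vcDim_minimize_le _).trans ((vcDim_image_erase F x).trans hFv))
      ((vcDim_without_le G x).trans hGv)
    have i1 : ∀ I ∈ link F x, (β I = true ↔
        IsDualPair (minimize ((without F x).image (fun I' => I' \ I)))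
          (minimize ((link G x).filter (fun J => Disjoint J I)))) := fun I hI' =>
      ihI I hI' (minimize_antichain _) (minimize_antichain _)
        ((vcDim_minimize_le _).trans
          ((vcDim_image_sdiff _ I).trans ((vcDim_without_le F x).trans hFv)))
        ((vcDim_minimize_le _).trans
          ((vcDim_filter_le _ _).trans ((vcDim_link_le G x).trans hGv)))
    rw [hb, i0, dual_expandF x hF hG hT.1]
    exact and_congr_right fun _ => forall₂_congr i1
  | @expandG F G x b b₀ β k₀ k h hT hx h₀ hJ hb ih₀ ihJ =>
    have i0 := ih₀ (without_antichain x hF) (minimize_antichain _)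
      ((vcDim_without_le F x).trans hFv)
      ((vcDim_minimize_le _).trans ((vcDim_image_erase G x).trans hGv))
    have i1 : ∀ J ∈ link G x, (β J = true ↔
        IsDualPair (minimize ((link F x).filter (fun I => Disjoint I J)))
          (minimize ((without G x).image (fun J' => J' \ J)))) := fun J hJ' =>
      ihJ J hJ' (minimize_antichain _) (minimize_antichain _)
        ((vcDim_minimize_le _).trans
          ((vcDim_filter_le _ _).trans ((vcDim_link_le F x).trans hFv)))
        ((vcDim_minimize_le _).trans
          ((vcDim_image_sdiff _ J).trans ((vcDim_without_le G x).trans hGv)))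
    rw [hb, i0, dual_expandG x hF hG hT.1]
    exact and_congr_right fun _ => forall₂_congr i1

end Pool.Agent.Helper81.VCD
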