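import Mathlib
import Pool.Agent.Helper81.VCD.Defs

/-!
# VCD-13: the procedure terminates on every input (Mathlib only; 60-100 lines)

PROOF. Strong induction on `|F| + |G|`. If `min |F| |G| ≤ 1`: `base` with
`b = decide (IsDualPair F G)` (classical). If `Tests s F G` fails: `reject`. Otherwise there is `x` with
`Heavy s F x` or `Heavy s G x`; since `F`, `G` have at least two members and `|F| ≤ s * #{I | x ∈ I}`
(resp. for `G`), `x` occurs in `F` (resp. `G`) and hence, by the test, in both. So
`|without F x| < |F|`, `|without G x| < |G|`; and `|minimize (G.image ..)| ≤ |G|` etc. Depending on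
`Heavy (2^t)` of the other family use `split`, `expandF` or `expandG`; all sub-pairs have a smaller
`|F'| + |G'|`: for `expandF` and `I ∈ link F x`: `|(without F x).image ..| ≤ |without F x| < |F|` and
`|(link G x).filter ..| ≤ |link G x| ≤ |G|`. For the expansions choose `β`, `k` with `choose` (extended by
default values outside `link F x`, e.g. by `classical; choose! ...`).
-/

set_option autoImplicit false

namespace Pool.Agent.Helper81.VCD

open Pool.Agent.Helper64.Free

variable {V : Type} [DecidableEq V]

private theorem card_minimize_le (F : Finset (Finset V)) : (minimize F).card ≤ F.card :=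
  Finset.card_filter_le _ _

private theorem card_without_lt (F : Finset (Finset V)) (x : V) (h : ∃ I ∈ F, x ∈ I) :
    (without F x).card < F.card := by
  obtain ⟨I, hI, hxI⟩ := h
  apply Finset.card_lt_card
  rw [without, Finset.filter_ssubset]
  exact ⟨I, hI, fun h => h hxI⟩

private theorem card_link_le (F : Finset (Finset V)) (x : V) : (link F x).card ≤ F.card :=
  le_trans Finset.card_image_le (Finset.card_filter_le _ _)

private theorem card_without_le (F : Finset (Finset V)) (x : V) :
    (without F x).card ≤ F.card := Finset.card_filter_le _ _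

private theorem occurs_of_heavy {s : ℕ} {F : Finset (Finset V)} {x : V} (hF : 1 < F.card)
    (h : Heavy s F x) : ∃ I ∈ F, x ∈ I := by
  by_contra hc
  push Not at hc
  have h0 : F.filter (fun I => x ∈ I) = ∅ := by
    rw [Finset.filter_eq_empty_iff]
    intro I hI
    exact hc I hI
  unfold Heavy at h
  rw [h0] at h
  simp only [Finset.card_empty, mul_zero, nonpos_iff_eq_zero] at h
  omega

private theorem exists_run_aux (s t n : ℕ) : ∀ F G : Finset (Finset V),
    F.card + G.card ≤ n → ∃ b k, Alg s t F G b k := by
  classical
  induction n with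
  | zero =>
    intro F G h
    refine ⟨decide (IsDualPair F G), 1, Alg.base _ ?_ (by simp)⟩
    have : F.card = 0 := by omega
    rw [this]
    simp
  | succ n ih =>
    intro F G hn
    by_cases h1 : min F.card G.card ≤ 1
    · exact ⟨decide (IsDualPair F G), 1, Alg.base _ h1 (by simp)⟩
    have h : 1 < min F.card G.card := by omega
    by_cases hT : Tests s F G
    swap
    · exact ⟨false, 1, Alg.reject h hT⟩
    have hF1 : 1 < F.card := lt_of_lt_of_le h (min_le_left _ _)
    have hG1 : 1 < G.card := lt_of_lt_of_le h (min_le_right _ _)
    obtain ⟨_, hsup, x, hx⟩ := id hT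
    have hxF : ∃ I ∈ F, x ∈ I := by
      rcases hx with hx | hx
      · exact occurs_of_heavy hF1 hx
      · exact (hsup x).mpr (occurs_of_heavy hG1 hx)
    have hxG : ∃ I ∈ G, x ∈ I := (hsup x).mp hxF
    have a1 := card_without_lt F x hxF
    have a2 := card_without_lt G x hxG
    have a3 := card_link_le F x
    have a4 := card_link_le G x
    have b3 : (minimize (G.image (fun J => J.erase x))).card ≤ G.card :=
      le_trans (card_minimize_le _) Finset.card_image_le
    have b4 : (minimize (F.image (fun J => J.erase x))).card ≤ F.card :=
      le_trans (card_minimize_le _) Finset.card_image_le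
    obtain ⟨b₀, k₀, h₀⟩ := ih (without F x) (minimize (G.image (fun J => J.erase x))) (by omega)
    obtain ⟨b₁, k₁, h₁⟩ := ih (minimize (F.image (fun I => I.erase x))) (without G x) (by omega)
    by_cases hx2 : (Heavy s F x ∧ Heavy (2 ^ t) G x) ∨ (Heavy s G x ∧ Heavy (2 ^ t) F x)
    · exact ⟨decide (b₀ = true ∧ b₁ = true), 1 + k₀ + k₁,
        Alg.split x _ b₀ b₁ k₀ k₁ h hT hx2 h₀ h₁ (by simp)⟩
    rcases hx with hx | hx
    · have hG2 : ¬ Heavy (2 ^ t) G x := fun hc => hx2 (Or.inl ⟨hx, hc⟩)
      have key : ∀ I : Finset V, ∃ b k, I ∈ link F x →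
          Alg s t (minimize ((without F x).image (fun I' => I' \ I)))
            (minimize ((link G x).filter (fun J => Disjoint J I))) b k := by
        intro I
        have c1 : (minimize ((without F x).image (fun I' => I' \ I))).card ≤ (without F x).card :=
          le_trans (card_minimize_le _) Finset.card_image_le
        have c2 : (minimize ((link G x).filter (fun J => Disjoint J I))).card ≤ (link G x).card :=
          le_trans (card_minimize_le _) (Finset.card_filter_le _ _)
        obtain ⟨b, k, hbk⟩ := ih (minimize ((without F x).image (fun I' => I' \ I)))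
          (minimize ((link G x).filter (fun J => Disjoint J I))) (by omega)
        exact ⟨b, k, fun _ => hbk⟩
      choose β k hβ using key
      exact ⟨decide (b₁ = true ∧ ∀ I ∈ link F x, β I = true), 1 + k₁ + ∑ I ∈ link F x, k I,
        Alg.expandF x _ b₁ β k₁ k h hT ⟨hx, hG2⟩ h₁ (fun I hI => hβ I hI) (by simp)⟩
    · have hF2 : ¬ Heavy (2 ^ t) F x := fun hc => hx2 (Or.inr ⟨hx, hc⟩)
      have key : ∀ J : Finset V, ∃ b k, J ∈ link G x →
          Alg s t (minimize ((link F x).filter (fun I => Disjoint I J)))
            (minimize ((without G x).image (fun J' => J' \ J))) b k := by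
        intro J
        have c1 : (minimize ((without G x).image (fun J' => J' \ J))).card ≤ (without G x).card :=
          le_trans (card_minimize_le _) Finset.card_image_le
        have c2 : (minimize ((link F x).filter (fun I => Disjoint I J))).card ≤ (link F x).card :=
          le_trans (card_minimize_le _) (Finset.card_filter_le _ _)
        obtain ⟨b, k, hbk⟩ := ih (minimize ((link F x).filter (fun I => Disjoint I J)))
          (minimize ((without G x).image (fun J' => J' \ J))) (by omega)
        exact ⟨b, k, fun _ => hbk⟩
      choose β k hβ using key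
      exact ⟨decide (b₀ = true ∧ ∀ J ∈ link G x, β J = true), 1 + k₀ + ∑ J ∈ link G x, k J,
        Alg.expandG x _ b₀ β k₀ k h hT ⟨hx, hF2⟩ h₀ (fun J hJ => hβ J hJ) (by simp)⟩

theorem exists_run (s t : ℕ) (F G : Finset (Finset V)) : ∃ b k, Alg s t F G b k :=
  exists_run_aux s t (F.card + G.card) F G le_rfl

end Pool.Agent.Helper81.VCD
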