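import Mathlib
import Pool.Agent.Helper81.VCD.Defs
import Pool.Agent.Helper81.VCD.Bound
import Pool.Agent.Helper81.VCD.Exists
import Pool.Agent.Helper81.VCD.Correct

set_option autoImplicit false

namespace Pool.Agent.Helper81.VCD

open Pool.Agent.Helper64.Free

theorem main (d D s : ℕ) (hd : 1 ≤ d) (hD : 1 ≤ D)
    (hs : s = 4096 * (d * D) * (Nat.log 2 (d * D) + 1) ^ 2) (V : Type) [DecidableEq V]
    (F G : Finset (Finset V)) (hF : F.vcDim ≤ d) (hG : G.vcDim ≤ D) :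
    (IsDualPair F G → ∃ E ∈ F ∪ G, E.card < s) ∧
    ∀ n t : ℕ, n = Nat.log 2 (F.card * G.card) → t = Nat.sqrt (n / s) + 1 →
      IsAntichain (· ⊆ ·) (F : Set (Finset V)) → IsAntichain (· ⊆ ·) (G : Set (Finset V)) →
      (∃ b k, Alg s t F G b k) ∧
      ∀ b k, Alg s t F G b k →
        (b = true ↔ IsDualPair F G) ∧ k ≤ (F.card * G.card) ^ (s * (t + 1)) + 1 := by
  refine ⟨fun h => dual_small_edge d D s hd hD hs F G h hF hG, ?_⟩
  intro n t hn ht hFa hGa
  refine ⟨exists_run s t F G, fun b k h => ?_⟩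
  refine ⟨answer_correct d D s t hd hD hs F G hFa hGa hF hG b k h, ?_⟩
  have hs1 : 1 ≤ s := by
    rw [hs]
    have h1 : 1 ≤ d * D := Nat.mul_pos hd hD
    have h2 : 1 ≤ (Nat.log 2 (d * D) + 1) ^ 2 := Nat.one_le_pow _ _ (Nat.succ_pos _)
    calc 1 ≤ 4096 * 1 * 1 := by norm_num
      _ ≤ _ := Nat.mul_le_mul (Nat.mul_le_mul le_rfl h1) h2
  have ht1 : 1 ≤ t := by omega
  have hlt : F.card * G.card < 2 ^ (n + 1) := by
    rw [hn]; exact Nat.lt_pow_succ_log_self (by norm_num) _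
  refine calls_le s t (s * (t + 1)) n hs1 ht1 le_rfl ?_ F G b k h hlt
  -- n + 2 ≤ t * (s * (t + 1))
  have hq : n / s + 1 ≤ t * t := by
    have := Nat.lt_succ_sqrt (n / s)
    rw [ht]; exact this
  have hn1 : n + 1 ≤ s * (t * t) := by
    have h3 : n < s * (n / s + 1) := by
      have := Nat.lt_mul_div_succ n (b := s) (by omega)
      exact this
    have h4 : s * (n / s + 1) ≤ s * (t * t) := Nat.mul_le_mul_left s hq
    omega
  have h5 : 1 ≤ s * t := Nat.mul_pos hs1 ht1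
  nlinarith

end Pool.Agent.Helper81.VCD
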